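import Pool.Agent.H304Z.VN

set_option autoImplicit false
set_option linter.unusedSectionVars false

/-!
Two groups of circle valued functions with the same linear span give semidirect products with
isomorphic von Neumann algebras.
-/

namespace Pool.Agent.H304Z

open MonoidAlgebra

section fn

variable {X : Type}

/-- circle valued functions as complex valued functions -/
noncomputable def cf : (X → Circle) →* (X → ℂ) where
  toFun a := fun ξ => (a ξ : ℂ)
  map_one' := by funext ξ; simp
  map_mul' a b := by funext ξ; simp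

theorem cf_apply (a : X → Circle) (ξ : X) : cf a ξ = (a ξ : ℂ) := rfl

/-- evaluation of the group algebra -/
noncomputable def ev (B : Subgroup (X → Circle)) : MonoidAlgebra ℂ B →ₐ[ℂ] (X → ℂ) :=
  MonoidAlgebra.lift ℂ (X → ℂ) B (cf.comp B.subtype)

theorem ev_single (B : Subgroup (X → Circle)) (b : B) (c : ℂ) :
    ev B (single b c) = c • cf b.1 := by
  simp [ev]

theorem ev_range (B : Subgroup (X → Circle)) (f : X → ℂ)
    (hf : f ∈ Submodule.span ℂ (cf '' (B : Set (X → Circle)))) : ∃ m, ev B m = f := by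
  induction hf using Submodule.span_induction with
  | mem x hx =>
    obtain ⟨b, hb, rfl⟩ := hx
    exact ⟨single ⟨b, hb⟩ 1, by rw [ev_single, one_smul]⟩
  | zero => exact ⟨0, map_zero _⟩
  | add x y _ _ hx hy =>
    obtain ⟨m, rfl⟩ := hx
    obtain ⟨m', rfl⟩ := hy
    exact ⟨m + m', map_add _ _ _⟩
  | smul c x _ hx =>
    obtain ⟨m, rfl⟩ := hx
    exact ⟨c • m, map_smul _ _ _⟩

/-- the involution of a group algebra -/
noncomputable def st {B : Type} [Group B] (m : MonoidAlgebra ℂ B) : MonoidAlgebra ℂ B :=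
  MonoidAlgebra.ofCoeff (Finsupp.mapRange (starRingEnd ℂ) (map_zero _)
    (Finsupp.equivMapDomain (Equiv.inv B) m.coeff))

theorem st_coeff {B : Type} [Group B] (m : MonoidAlgebra ℂ B) (x : B) :
    (st m).coeff x = (starRingEnd ℂ) (m.coeff x⁻¹) := rfl

theorem st_zero {B : Type} [Group B] : st (0 : MonoidAlgebra ℂ B) = 0 := by
  ext x
  rw [st_coeff]
  simp

theorem st_add {B : Type} [Group B] (m m' : MonoidAlgebra ℂ B) : st (m + m') = st m + st m' := by
  ext x
  simp [st_coeff]

theorem st_single {B : Type} [Group B] (b : B) (c : ℂ) :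
    st (single b c) = single b⁻¹ ((starRingEnd ℂ) c) := by
  classical
  ext x
  rw [st_coeff, coeff_single, coeff_single, Finsupp.single_apply, Finsupp.single_apply]
  by_cases h : b = x⁻¹
  · simp [h]
  · rw [if_neg h, if_neg, map_zero]
    intro h'
    exact h (by rw [← h', inv_inv])

theorem ev_st (B : Subgroup (X → Circle)) (m : MonoidAlgebra ℂ B) (ξ : X) :
    ev B (st m) ξ = (starRingEnd ℂ) (ev B m ξ) := by
  induction m using MonoidAlgebra.induction_linear with
  | zero => simp [st_zero]
  | add a b ha hb => rw [st_add, map_add, map_add, Pi.add_apply, Pi.add_apply, ha, hb, map_add]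
  | single g c =>
    rw [st_single, ev_single, ev_single, Pi.smul_apply, Pi.smul_apply, smul_eq_mul, smul_eq_mul,
      map_mul, cf_apply, cf_apply, ← Circle.coe_inv_eq_conj]
    rfl

theorem ev_mapDomain (B : Subgroup (X → Circle)) (φ : B → B) (t : X → X)
    (h : ∀ b ξ, (φ b).1 ξ = b.1 (t ξ)) (m : MonoidAlgebra ℂ B) (ξ : X) :
    ev B (mapDomain φ m) ξ = ev B m (t ξ) := by
  induction m using MonoidAlgebra.induction_linear with
  | zero => simp
  | add a b ha hb =>
    rw [mapDomain_add, map_add, map_add, Pi.add_apply, Pi.add_apply, ha, hb]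
  | single g c =>
    rw [mapDomain_single, ev_single, ev_single, Pi.smul_apply, Pi.smul_apply, cf_apply, cf_apply,
      h]

/-- twisting the coefficients -/
noncomputable def Tw (B : Subgroup (X → Circle)) (k : X) :
    MonoidAlgebra ℂ B →ₗ[ℂ] MonoidAlgebra ℂ B :=
  (Finsupp.linearCombination ℂ (fun b : B => (single b (b.1 k : ℂ) : MonoidAlgebra ℂ B))).comp
    (MonoidAlgebra.coeffLinearEquiv ℂ).toLinearMap

theorem Tw_single (B : Subgroup (X → Circle)) (k : X) (b : B) (c : ℂ) :
    Tw B k (single b c) = single b (c * (b.1 k : ℂ)) := by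
  simp [Tw]

theorem Tw_coeff_one (B : Subgroup (X → Circle)) (k : X) (m : MonoidAlgebra ℂ B) :
    (Tw B k m).coeff 1 = m.coeff 1 := by
  classical
  induction m using MonoidAlgebra.induction_linear with
  | zero => simp
  | add a b ha hb => rw [map_add, coeff_add, coeff_add, Finsupp.add_apply, Finsupp.add_apply, ha, hb]
  | single g c =>
    rw [Tw_single, coeff_single, coeff_single, Finsupp.single_apply, Finsupp.single_apply]
    by_cases h : g = 1
    · simp [h]
    · simp [h]

variable [AddCommGroup X]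

theorem ev_Tw (B : Subgroup (X → Circle)) (hch : ∀ a ∈ B, ∀ x y, a (x + y) = a x * a y) (k : X)
    (m : MonoidAlgebra ℂ B) (ξ : X) : ev B (Tw B k m) ξ = ev B m (ξ + k) := by
  induction m using MonoidAlgebra.induction_linear with
  | zero => simp
  | add a b ha hb => rw [map_add, map_add, map_add, Pi.add_apply, Pi.add_apply, ha, hb]
  | single g c =>
    rw [Tw_single, ev_single, ev_single, Pi.smul_apply, Pi.smul_apply, cf_apply, cf_apply,
      hch _ g.2, Circle.coe_mul, smul_eq_mul, smul_eq_mul]
    ring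

theorem ev_inj (B : Subgroup (X → Circle)) (hch : ∀ a ∈ B, ∀ x y, a (x + y) = a x * a y) :
    Function.Injective (ev B) := by
  let ch : B → (Multiplicative X →* ℂ) := fun b =>
    { toFun := fun x => (b.1 x.toAdd : ℂ)
      map_one' := by
        have h := hch _ b.2 0 0
        rw [add_zero] at h
        have h0 : b.1 0 = 1 := left_eq_mul.mp h
        show (b.1 0 : ℂ) = 1
        rw [h0, Circle.coe_one]
      map_mul' := fun x y => by
        show (b.1 (x.toAdd + y.toAdd) : ℂ) = _
        rw [hch _ b.2, Circle.coe_mul] }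
  have hinj : Function.Injective ch := by
    intro b b' h
    apply Subtype.ext
    funext x
    apply Circle.coe_injective
    exact DFunLike.congr_fun h (Multiplicative.ofAdd x)
  have hli : LinearIndependent ℂ (fun b : B => cf b.1) :=
    (linearIndependent_monoidHom (Multiplicative X) ℂ).comp ch hinj
  have e : ∀ m, ev B m = Finsupp.linearCombination ℂ (fun b : B => cf b.1) m.coeff := by
    intro m
    induction m using MonoidAlgebra.induction_linear with
    | zero => simp
    | add a b ha hb => rw [map_add, coeff_add, map_add, ha, hb]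
    | single g c => rw [ev_single, coeff_single, Finsupp.linearCombination_single]
  intro m m' h
  rw [e, e] at h
  exact coeff_injective (hli h)

theorem exists_theta (A B : Subgroup (X → Circle))
    (hch : ∀ a ∈ B, ∀ x y, a (x + y) = a x * a y)
    (hA : ∀ a ∈ A, cf a ∈ Submodule.span ℂ (cf '' (B : Set (X → Circle)))) :
    ∃ θ : A →* MonoidAlgebra ℂ B, ∀ a, ev B (θ a) = cf a.1 := by
  choose t ht using fun a : A => ev_range B (cf a.1) (hA a.1 a.2)
  refine ⟨{ toFun := t, map_one' := ?_, map_mul' := ?_ }, ht⟩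
  · apply ev_inj B hch
    rw [ht, map_one]
    exact map_one cf
  · intro a b
    apply ev_inj B hch
    rw [ht, map_mul, ht, ht]
    exact map_mul cf a.1 b.1

end fn

section sd

open SemidirectProduct

variable {B Γ : Type} [Group B] [Group Γ] {φ : Γ →* MulAut B}

/-- the inclusion of group algebras -/
noncomputable def JJ (φ : Γ →* MulAut B) : MonoidAlgebra ℂ B →ₐ[ℂ] MonoidAlgebra ℂ (B ⋊[φ] Γ) :=
  MonoidAlgebra.mapDomainAlgHom ℂ ℂ (inl : B →* B ⋊[φ] Γ)

theorem JJ_single (b : B) (c : ℂ) : JJ φ (single b c) = single (inl b) c := by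
  simp [JJ]

theorem JJ_conj (γ : Γ) (m : MonoidAlgebra ℂ B) :
    single (inr γ : B ⋊[φ] Γ) (1 : ℂ) * JJ φ m =
      JJ φ (mapDomain (φ γ) m) * single (inr γ : B ⋊[φ] Γ) (1 : ℂ) := by
  induction m using MonoidAlgebra.induction_linear with
  | zero => simp
  | add a b ha hb => rw [mapDomain_add, map_add, map_add, mul_add, add_mul, ha, hb]
  | single g c =>
    rw [mapDomain_single, JJ_single, JJ_single, single_mul_single, single_mul_single, inl_aut]
    simp

open Classical in
theorem JJ_coeff (γ : Γ) (m : MonoidAlgebra ℂ B) (p : B ⋊[φ] Γ) :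
    (JJ φ m * single (inr γ : B ⋊[φ] Γ) (1 : ℂ)).coeff p =
      if p.right = γ then m.coeff p.left else 0 := by
  induction m using MonoidAlgebra.induction_linear with
  | zero => simp
  | add a b ha hb =>
    rw [map_add, add_mul, coeff_add, Finsupp.add_apply, ha, hb, coeff_add, Finsupp.add_apply]
    split_ifs <;> simp
  | single g c =>
    rw [JJ_single, single_mul_single, mul_one, coeff_single, coeff_single, Finsupp.single_apply,
      Finsupp.single_apply]
    by_cases h : inl g * inr γ = p
    · subst h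
      simp
    · rw [if_neg h]
      split_ifs with h1 h2
      · exact absurd (by rw [h2, ← h1, inl_left_mul_inr_right]) h
      · rfl
      · rfl

end sd

open SemidirectProduct in
/-- the isomorphism of the von Neumann algebras of the two semidirect products -/
theorem vn_semidirect {X Γ : Type} [AddCommGroup X] [Group Γ] (A B : Subgroup (X → Circle))
    (act : Γ → X → X) (φA : Γ →* MulAut A) (φB : Γ →* MulAut B)
    (hφA : ∀ γ a ξ, (φA γ a).1 ξ = a.1 (act γ ξ))
    (hφB : ∀ γ a ξ, (φB γ a).1 ξ = a.1 (act γ ξ))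
    (hch : ∀ a ∈ B, ∀ x y, a (x + y) = a x * a y)
    (hk : ∀ a ∈ A, a ≠ 1 → ∃ k, a k ≠ 1 ∧ ∀ y, a (y + k) = a y * a k)
    (hA : ∀ a ∈ A, cf a ∈ Submodule.span ℂ (cf '' (B : Set (X → Circle))))
    (hB : ∀ a ∈ B, cf a ∈ Submodule.span ℂ (cf '' (A : Set (X → Circle)))) :
    ∃ Φ : (L2 (B ⋊[φB] Γ) →L[ℂ] L2 (B ⋊[φB] Γ)) → (L2 (A ⋊[φA] Γ) →L[ℂ] L2 (A ⋊[φA] Γ)),
      Set.BijOn Φ (Cm (B ⋊[φB] Γ)) (Cm (A ⋊[φA] Γ)) ∧
      ∀ x ∈ Cm (B ⋊[φB] Γ), ∀ y ∈ Cm (B ⋊[φB] Γ),
        Φ (x + y) = Φ x + Φ y ∧ Φ (x * y) = Φ x * Φ y ∧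
        Φ (star x) = star (Φ x) ∧ ∀ c : ℂ, Φ (c • x) = c • Φ x := by
  classical
  obtain ⟨t, ht⟩ := exists_theta A B hch hA
  have hinj := ev_inj B hch
  have teq : ∀ γ a, t (φA γ a) = mapDomain (φB γ) (t a) := by
    intro γ a
    apply hinj
    funext ξ
    rw [ev_mapDomain B (φB γ) (act γ) (hφB γ), ht, ht, cf_apply, cf_apply, hφA]
  have ttr : ∀ a, a ≠ 1 → (t a).coeff 1 = 0 := by
    intro a ha
    obtain ⟨k, hk1, hk2⟩ := hk a.1 a.2 (fun h => ha (Subtype.ext h))
    have e : Tw B k (t a) = (a.1 k : ℂ) • t a := by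
      apply hinj
      funext ξ
      rw [ev_Tw B hch, map_smul, ht, Pi.smul_apply, cf_apply, cf_apply, hk2, Circle.coe_mul,
        smul_eq_mul, mul_comm]
    have e2 := Tw_coeff_one B k (t a)
    rw [e, coeff_smul_apply, smul_eq_mul] at e2
    have e3 : ((a.1 k : ℂ) - 1) * (t a).coeff 1 = 0 := by linear_combination e2
    refine (mul_eq_zero.mp e3).resolve_left ?_
    intro h
    exact hk1 (Circle.coe_eq_one.mp (sub_eq_zero.mp h))
  have tst : ∀ a, t a⁻¹ = st (t a) := by
    intro a
    apply hinj
    funext ξ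
    rw [ev_st, ht, ht, cf_apply, cf_apply, ← Circle.coe_inv_eq_conj]
    rfl
  have tsp : ∀ b : B, single b (1 : ℂ) ∈ Submodule.span ℂ (Set.range t) := by
    intro b
    have h1 := hB b.1 b.2
    have e : cf '' (A : Set (X → Circle)) = (ev B).toLinearMap '' Set.range t := by
      ext f
      constructor
      · rintro ⟨a, ha, rfl⟩
        exact ⟨t ⟨a, ha⟩, ⟨_, rfl⟩, ht _⟩
      · rintro ⟨_, ⟨a, rfl⟩, rfl⟩
        exact ⟨a.1, a.2, (ht a).symm⟩
    rw [e, ← Submodule.map_span] at h1
    obtain ⟨m, hm, hm2⟩ := h1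
    have : m = single b 1 := by
      apply hinj
      rw [ev_single, one_smul]
      exact hm2
    rw [← this]
    exact hm
  let θ : (A ⋊[φA] Γ) →* MonoidAlgebra ℂ (B ⋊[φB] Γ) :=
    { toFun := fun q => JJ φB (t q.left) * single (inr q.right) 1
      map_one' := by
        simp only [one_left, one_right, map_one, one_mul]
        rfl
      map_mul' := fun p q => by
        rw [mul_left, mul_right, map_mul, map_mul, teq, map_mul, mul_assoc, mul_assoc,
          ← mul_assoc (single (inr p.right) 1), JJ_conj, mul_assoc, single_mul_single, mul_one] }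
  have hθ : ∀ q, θ q = JJ φB (t q.left) * single (inr q.right) 1 := fun _ => rfl
  refine vn_iso θ ?_ ?_ ?_
  · intro h hh
    rw [hθ, JJ_coeff]
    split_ifs with h1
    · apply ttr
      intro h2
      apply hh
      ext1
      · exact h2
      · exact h1.symm
    · rfl
  · intro h x
    rw [hθ, hθ, JJ_coeff, JJ_coeff, inv_right, inv_right, inv_left, inv_left]
    by_cases h1 : x.right = h.right
    · rw [if_pos h1, if_pos (by rw [h1]), teq, h1, tst]
      show (Finsupp.mapDomain (φB h.right⁻¹) (st (t h.left)).coeff) (φB h.right⁻¹ x.left⁻¹) = _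
      rw [Finsupp.mapDomain_apply (φB h.right⁻¹).injective, st_coeff, inv_inv]
    · rw [if_neg h1, if_neg (fun h2 => h1 (inv_injective h2)), map_zero]
  · intro g
    have h1 : ∀ m ∈ Submodule.span ℂ (Set.range t),
        JJ φB m * single (inr g.right) 1 ∈ Submodule.span ℂ (Set.range θ) := by
      intro m hm
      induction hm using Submodule.span_induction with
      | mem x hx =>
        obtain ⟨a, rfl⟩ := hx
        exact Submodule.subset_span ⟨⟨a, g.right⟩, rfl⟩
      | zero => simp
      | add x y _ _ hx hy => rw [map_add, add_mul]; exact add_mem hx hy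
      | smul c x _ hx => rw [map_smul, smul_mul_assoc]; exact Submodule.smul_mem _ c hx
    have h2 := h1 _ (tsp g.left)
    rw [JJ_single, single_mul_single, inl_left_mul_inr_right, mul_one] at h2
    exact h2

end Pool.Agent.H304Z
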