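import Pool.Agent.H304Z.Model

set_option autoImplicit false
set_option linter.unusedSectionVars false

/-!
The properties of the two groups.
-/

namespace Pool.Agent.H304Z

open Matrix Polynomial SemidirectProduct

variable {F : Type} [Field F] (D : Dat F)

theorem BB_char : ∀ a ∈ BB D, ∀ x y, a (x + y) = a x * a y := by
  intro a ha
  induction ha using Subgroup.closure_induction with
  | mem f hf =>
    obtain ⟨a, x, -, rfl | rfl⟩ := hf
    · intro ξ η
      simp only [wf, Prod.fst_add, LinearMap.add_apply, mul_add, D.ch_add]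
    · intro ξ η
      simp only [bf, Prod.snd_add, LinearMap.add_apply, mul_add, D.ch_add]
  | one => intro x y; simp
  | mul f g _ _ hf hg =>
    intro x y
    simp only [Pi.mul_apply, hf, hg]
    exact mul_mul_mul_comm _ _ _ _
  | inv f _ hf =>
    intro x y
    simp only [Pi.inv_apply, hf, mul_inv]

/-- product of two linear forms -/
noncomputable def tens (l l' : WW F →ₗ[F] F) : WW F →ₗ[F] WW F →ₗ[F] F :=
  (LinearMap.mul F F).compl₁₂ l l'

theorem tens_apply (l l' : WW F →ₗ[F] F) (x y : WW F) : tens l l' x y = l x * l' y := rfl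

theorem AA_char : ∀ a ∈ AA D, ∀ ξ η : XX F,
    a ξ * a η = a (ξ.1 + η.1, ξ.2 + η.2 + tens ξ.1 η.1) := by
  intro a ha
  induction ha using Subgroup.closure_induction with
  | mem f hf =>
    obtain ⟨a, x, -, rfl | rfl⟩ := hf
    · intro ξ η
      simp only [wf, LinearMap.add_apply, mul_add, D.ch_add]
    · intro ξ η
      simp only [ef, LinearMap.add_apply, mul_add, D.ch_add, tens_apply]
      rw [mul_mul_mul_comm, D.h_mul]
      have e : a * ξ.1 x * (a * η.1 x) = a ^ 2 * (ξ.1 x * η.1 x) := by ring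
      rw [e, mul_assoc, mul_comm (D.ch (a ^ 2 * (ξ.1 x * η.1 x)))]
  | one => intro x y; simp
  | mul f g _ _ hf hg =>
    intro x y
    simp only [Pi.mul_apply, ← hf, ← hg]
    exact mul_mul_mul_comm _ _ _ _
  | inv f _ hf =>
    intro x y
    simp only [Pi.inv_apply, ← hf, mul_inv]

theorem AA_k : ∀ a ∈ AA D, a ≠ 1 → ∃ k, a k ≠ 1 ∧ ∀ y, a (y + k) = a y * a k := by
  intro a ha hne
  have hc := AA_char D a ha
  have h0 : ∀ (y : XX F) (q : WW F →ₗ[F] WW F →ₗ[F] F), a (y + (0, q)) = a y * a (0, q) := by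
    intro y q
    rw [hc]
    congr 1
    refine Prod.ext rfl ?_
    have : tens y.1 0 = 0 := by
      refine LinearMap.ext fun x => LinearMap.ext fun z => ?_
      rw [tens_apply]
      simp
    simp [this]
  by_cases h : ∃ q, a (0, q) ≠ 1
  · obtain ⟨q, hq⟩ := h
    exact ⟨(0, q), hq, fun y => h0 y q⟩
  · push Not at h
    obtain ⟨k, hk⟩ : ∃ k, a k ≠ 1 := by
      by_contra h1
      push Not at h1
      exact hne (funext h1)
    refine ⟨k, hk, fun y => ?_⟩
    have e : (y.1 + k.1, y.2 + k.2 + tens y.1 k.1) = (y + k) + (0, tens y.1 k.1) := by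
      refine Prod.ext ?_ rfl
      simp
    rw [hc, e, h0, h, mul_one]

theorem fun_span [Fintype F] (B : Subgroup (XX F → Circle)) (x : WW F)
    (hB : ∀ a, wf D a x ∈ B) (u : F → ℂ) :
    (fun ξ : XX F => u (ξ.1 x)) ∈ Submodule.span ℂ (cf '' (B : Set (XX F → Circle))) := by
  obtain ⟨c, hc⟩ := D.fourier u
  have e : (fun ξ : XX F => u (ξ.1 x)) = ∑ a, c a • cf (wf D a x) := by
    funext ξ
    rw [hc, Finset.sum_apply]
    rfl
  rw [e]
  exact Submodule.sum_mem _ fun a _ =>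
    Submodule.smul_mem _ _ (Submodule.subset_span ⟨_, hB a, rfl⟩)

theorem AA_span [Fintype F] :
    ∀ a ∈ AA D, cf a ∈ Submodule.span ℂ (cf '' (BB D : Set (XX F → Circle))) := by
  apply span_closure
  · rintro _ ⟨c, x, hx, rfl | rfl⟩
    · exact Submodule.subset_span ⟨_, wf_memB D c hx, rfl⟩
    · have e : cf (ef D c x) = (fun ξ : XX F => (fun s => (D.h (c * s) : ℂ)) (ξ.1 x)) *
          cf (bf D (c ^ 2) x) := by
        funext ξ
        rfl
      rw [e]
      exact span_mul _ (fun_span D _ x (fun a => wf_memB D a hx) (fun s => (D.h (c * s) : ℂ)))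
        (Submodule.subset_span ⟨_, bf_memB D _ hx, rfl⟩)
  · rintro _ ⟨c, x, hx, rfl | rfl⟩
    · exact Submodule.subset_span ⟨_, inv_mem (wf_memB D c hx), rfl⟩
    · have e : cf (ef D c x)⁻¹ =
          (fun ξ : XX F => (fun s => (((D.h (c * s))⁻¹ : Circle) : ℂ)) (ξ.1 x)) *
          cf (bf D (c ^ 2) x)⁻¹ := by
        funext ξ
        simp only [cf_apply, Pi.mul_apply, Pi.inv_apply, ef, bf, mul_inv, Circle.coe_mul]
      rw [e]
      exact span_mul _ (fun_span D _ x (fun a => wf_memB D a hx)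
        (fun s => (((D.h (c * s))⁻¹ : Circle) : ℂ)))
        (Submodule.subset_span ⟨_, inv_mem (bf_memB D _ hx), rfl⟩)

theorem bf_span [Fintype F] [CharP F 2] (a : F) {x : WW F} (hx : x ∈ Om F) :
    cf (bf D a x) ∈ Submodule.span ℂ (cf '' (AA D : Set (XX F → Circle))) := by
  obtain ⟨c, rfl⟩ : IsSquare a := isSquare_of_charTwo' a
  have e : cf (bf D (c * c) x) =
      (fun ξ : XX F => (fun s => (((D.h (c * s))⁻¹ : Circle) : ℂ)) (ξ.1 x)) *
      cf (ef D c x) := by
    funext ξ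
    simp only [cf_apply, Pi.mul_apply, ef, bf, ← Circle.coe_mul, sq, inv_mul_cancel_left]
  rw [e]
  exact span_mul _ (fun_span D _ x (fun a => wf_memA D a hx)
    (fun s => (((D.h (c * s))⁻¹ : Circle) : ℂ)))
    (Submodule.subset_span ⟨_, ef_memA D _ hx, rfl⟩)

theorem BB_span [Fintype F] [CharP F 2] :
    ∀ a ∈ BB D, cf a ∈ Submodule.span ℂ (cf '' (AA D : Set (XX F → Circle))) := by
  apply span_closure
  · rintro _ ⟨c, x, hx, rfl | rfl⟩
    · exact Submodule.subset_span ⟨_, wf_memA D c hx, rfl⟩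
    · exact bf_span D c hx
  · rintro _ ⟨c, x, hx, rfl | rfl⟩
    · exact Submodule.subset_span ⟨_, inv_mem (wf_memA D c hx), rfl⟩
    · have e : (bf D c x)⁻¹ = bf D (-c) x := by
        funext ξ
        simp only [Pi.inv_apply, bf, neg_mul, D.ch_neg]
      rw [e]
      exact bf_span D (-c) hx

theorem Dat.ch_sq [CharP F 2] (s : F) : D.ch s * D.ch s = 1 := by
  rw [← D.ch_add, CharTwo.add_self_eq_zero, D.ch_zero]

theorem BB_sq [CharP F 2] : ∀ a ∈ BB D, a ^ 2 = 1 := by
  intro a ha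
  induction ha using Subgroup.closure_induction with
  | mem f hf =>
    obtain ⟨a, x, -, rfl | rfl⟩ := hf
    · funext ξ
      rw [sq]
      exact D.ch_sq _
    · funext ξ
      rw [sq]
      exact D.ch_sq _
  | one => simp
  | mul f g _ _ hf hg => rw [mul_pow, hf, hg, mul_one]
  | inv f _ hf => rw [inv_pow, hf, inv_one]

theorem lin_t20 (r : F[X]) : lin (tG n20 r) (ee 0) = ee 0 + r • ee 2 := by
  rw [lin_tG, if_pos rfl]

theorem ef_sq [CharP F 2] (x : WW F) (ξ : XX F) :
    (ef D 1 x ^ 2) ξ = D.ch (ξ.1 x * ξ.1 x) := by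
  rw [sq, Pi.mul_apply]
  simp only [ef, one_mul, one_pow]
  rw [mul_mul_mul_comm, D.ch_sq, mul_one, D.h_mul, CharTwo.add_self_eq_zero, D.h_zero, one_mul]

theorem AA_inf [CharP F 2] : (Set.range (fun n : AA D => n ^ 2)).Infinite := by
  let f : F[X] → AA D := fun r =>
    (⟨ef D 1 (lin (tG n20 r) (ee 0)), ef_memA D 1 (Om_lin _ Om_e0)⟩ : AA D) ^ 2
  refine Set.infinite_of_injective_forall_mem (f := f) ?_ (fun r => ⟨_, rfl⟩)
  intro r s hrs
  by_contra hne
  obtain ⟨n, hn⟩ : ∃ n, r.coeff n ≠ s.coeff n := by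
    by_contra h
    push Not at h
    exact hne (Polynomial.ext h)
  have hn' : r.coeff n - s.coeff n ≠ 0 := sub_ne_zero.mpr hn
  let c : F := (r.coeff n - s.coeff n)⁻¹
  let l : WW F →ₗ[F] F := c • ((Polynomial.lcoeff F n).comp (LinearMap.proj 2)) -
    (c * s.coeff n) • ((Polynomial.lcoeff F 0).comp (LinearMap.proj 0))
  have hl : ∀ t : F[X], l (lin (tG n20 t) (ee 0)) = c * t.coeff n - c * s.coeff n := by
    intro t
    rw [lin_t20]
    simp [l, ee]
  have h1 : ef D 1 (lin (tG n20 r) (ee 0)) ^ 2 = ef D 1 (lin (tG n20 s) (ee 0)) ^ 2 :=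
    congrArg Subtype.val hrs
  have h2 := congrFun h1 (l, 0)
  rw [ef_sq, ef_sq] at h2
  simp only [hl] at h2
  have e1 : c * r.coeff n - c * s.coeff n = 1 := by
    rw [← mul_sub]
    exact inv_mul_cancel₀ hn'
  rw [e1, sub_self, mul_zero, mul_one, D.ch_zero] at h2
  exact D.ch_one h2

theorem not_vi [CharP F 2] (h3 : ∀ c : F, c ^ 3 = 1 → c = 1) :
    ¬ ∃ (F' : Subgroup (PP D)) (K : Subgroup (QQ D)) (_ : F'.Normal) (_ : K.Normal),
        Finite F' ∧ Finite K ∧
        ∃ (G₀ : Subgroup (PP D ⧸ F')) (H₀ : Subgroup (QQ D ⧸ K)),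
          G₀.index ≠ 0 ∧ H₀.index ≠ 0 ∧ Nonempty (G₀ ≃* H₀) := by
  refine not_virt_iso (noAb_Gam h3) rightHom rightHom_surjective ?_ (inl : AA D →* QQ D)
    inl_injective ?_ (AA_inf D)
  · intro p hp
    have h1 : p ∈ (inl : BB D →* PP D).range := by
      rw [range_inl_eq_ker_rightHom]
      exact hp
    obtain ⟨b, rfl⟩ := h1
    have h2 : b ^ 2 = 1 := Subtype.ext (BB_sq D b.1 b.2)
    rw [← map_pow, h2, map_one]
  · intro q n
    have h1 : q * inl n * q⁻¹ ∈ (inl : AA D →* QQ D).range := by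
      rw [range_inl_eq_ker_rightHom, MonoidHom.mem_ker]
      simp
    obtain ⟨n', hn'⟩ := h1
    exact ⟨n', hn'.symm⟩

end Pool.Agent.H304Z
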