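import Pool.Agent.Helper455.KZ.Gap

set_option autoImplicit false
set_option linter.unusedSectionVars false

/-!
Property (T) for groups generated by lines which pairwise form twisted Heisenberg pairs, in which
the commutator of `u a` and `u' b` is `Z (a * b, a ^ 2 * b)`.
-/

open scoped InnerProductSpace

namespace Pool.Agent.H304Z

open Pool.Agent.Helper455.KZ

section hilb

variable {H : Type*} [NormedAddCommGroup H] [InnerProductSpace ℂ H]

theorem avg_sum {K : Type*} [AddCommGroup K] [Fintype K] {U : K → (H →L[ℂ] H)} {ι : Type*}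
    (s : Finset ι) (f : ι → H) : avg U (∑ i ∈ s, f i) = ∑ i ∈ s, avg U (f i) := by
  simp only [avg, map_sum]
  rw [Finset.sum_comm, Finset.smul_sum]

theorem bessel {ι : Type*} [Fintype ι] (E : ι → H → H) (hE : ∀ i, Proj (E i)) (y : H)
    (ho : ∀ i j, i ≠ j → ⟪E i y, E j y⟫_ℂ = 0) : ∑ i, ‖E i y‖ ^ 2 ≤ ‖y‖ ^ 2 := by
  classical
  set s : H := ∑ i, E i y with hs
  set S : ℝ := ∑ i, ‖E i y‖ ^ 2 with hS
  have h1 : (⟪s, y⟫_ℂ).re = S := by
    rw [hs, sum_inner, Complex.re_sum, hS]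
    exact Finset.sum_congr rfl fun i _ => (hE i).re_inner_self y
  have h2 : ‖s‖ ^ 2 = S := by
    have e : (⟪s, s⟫_ℂ).re = ‖s‖ ^ 2 := by
      rw [inner_self_eq_norm_sq_to_K]; norm_cast
    rw [← e]
    conv_lhs => rw [hs, sum_inner, Complex.re_sum]
    rw [hS]
    refine Finset.sum_congr rfl fun i _ => ?_
    rw [inner_sum, Finset.sum_eq_single i]
    · rw [inner_self_eq_norm_sq_to_K]; norm_cast
    · intro j _ hj
      exact ho i j (Ne.symm hj)
    · intro h; exact absurd (Finset.mem_univ _) h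
  have h3 : S ≤ ‖s‖ * ‖y‖ := by
    rw [← h1]
    exact (Complex.re_le_norm _).trans (norm_inner_le_norm _ _)
  have h4 : 0 ≤ ‖s‖ := norm_nonneg _
  have h5 : 0 ≤ ‖y‖ := norm_nonneg _
  nlinarith [sq_nonneg (‖s‖ - ‖y‖)]

variable {K : Type*} [Field K] [Fintype K]
variable {U U' : K → (H →L[ℂ] H)} {Z : K × K → (H →L[ℂ] H)}

/-- the line of slope `a` -/
def slope (Z : K × K → (H →L[ℂ] H)) (a : K) : K → (H →L[ℂ] H) := fun s => Z (s, a * s)

theorem slope_rep (hZ : URep Z) (a : K) : URep (slope Z a) where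
  zero x := by
    have : ((0 : K), a * 0) = (0 : K × K) := by simp
    simp only [slope, this, hZ.zero]
  add s t x := by
    have : ((s + t : K), a * (s + t)) = ((s, a * s) + (t, a * t) : K × K) := by
      simp [mul_add]
    simp only [slope, this, hZ.add]
  inner s x y := hZ.inner _ x y

theorem Z_comm (hZ : URep Z) (c d : K × K) (x : H) : Z c (Z d x) = Z d (Z c x) := by
  rw [← hZ.add, ← hZ.add, add_comm]

theorem avgZ_slope (hZ : URep Z) (a : K) (y : H) (hE : avg Z y = 0) :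
    avg Z (avg (slope Z a) y) = 0 := by
  have h1 : ∀ c, avg Z (Z c y) = 0 := by
    intro c
    rw [← avg_comm (Z c) (fun d x => Z_comm hZ c d x), hE, map_zero]
  have h2 : avg (slope Z a) y = ((Fintype.card K : ℂ)⁻¹) • ∑ s, Z (s, a * s) y := rfl
  rw [h2, avg_smul, avg_sum]
  simp only [h1, Finset.sum_const_zero, smul_zero]

theorem slope_orth (hZ : URep Z) (y : H) (hE : avg Z y = 0) (a a' : K) (ha : a ≠ a') :
    ⟪avg (slope Z a) y, avg (slope Z a') y⟫_ℂ = 0 := by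
  set x := avg (slope Z a) y with hx
  set x' := avg (slope Z a') y with hx'
  have hfx : ∀ s, Z (s, a * s) x = x := fun s => (slope_rep hZ a).fix_avg s y
  have hfx' : ∀ s, Z (s, a' * s) x' = x' := fun s => (slope_rep hZ a').fix_avg s y
  have hne : a - a' ≠ 0 := sub_ne_zero.mpr ha
  have h1 : ∀ c : K × K, ⟪x, Z c x'⟫_ℂ = ⟪x, x'⟫_ℂ := by
    intro c
    set s : K := (c.2 - a' * c.1) / (a - a') with hs
    have e : c = (s, a * s) + (c.1 - s, a' * (c.1 - s)) := by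
      ext
      · simp
      · simp only [Prod.snd_add]
        rw [hs]; field_simp; ring
    rw [e, hZ.add, hfx']
    conv_lhs => rw [← hfx s]
    exact hZ.inner _ _ _
  have h2 : ⟪x, avg Z x'⟫_ℂ = ⟪x, x'⟫_ℂ := by
    simp only [avg, inner_smul_right, inner_sum, h1, Finset.sum_const, Finset.card_univ,
      nsmul_eq_mul]
    rw [← mul_assoc, inv_mul_cancel₀ cardK_ne, one_mul]
  rw [← h2, hx', avgZ_slope hZ a' y hE, inner_zero_right]

theorem heis2_coef (h : URep U) (h' : URep U') (hZ : URep Z)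
    (hrel : ∀ a b x, U a (U' b x) = U' b (U a (Z (a * b, a ^ 2 * b) x)))
    (hZU : ∀ c b x, Z c (U b x) = U b (Z c x))
    (y : H) (hy : ∀ b, U' b y = y) (a : K) (ha : a ≠ 0) :
    (⟪U a y, y⟫_ℂ).re ≤ ‖avg (slope Z a) y‖ ^ 2 := by
  have h1 : ∀ b, ⟪U a y, y⟫_ℂ = ⟪U a (Z (a * b, a ^ 2 * b) y), y⟫_ℂ := by
    intro b
    have e1 : U' b (U a (Z (a * b, a ^ 2 * b) y)) = U a y := by rw [← hrel, hy]
    have e2 := h'.inner b (U a (Z (a * b, a ^ 2 * b) y)) y
    rw [e1, hy] at e2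
    exact e2
  set E := avg (slope Z a) with hEd
  have pE : Proj E := (slope_rep hZ a).avg_proj
  have h2 : ⟪U a y, y⟫_ℂ = ⟪U a (E y), y⟫_ℂ := by
    have e1 : ⟪U a (E y), y⟫_ℂ =
        ((Fintype.card K : ℂ)⁻¹) * ∑ s : K, ⟪U a (Z (s, a * s) y), y⟫_ℂ := by
      simp only [hEd, avg, slope, map_smul, map_sum, inner_smul_left, sum_inner, map_inv₀,
        map_natCast]
    have e2 : ∑ s : K, ⟪U a (Z (s, a * s) y), y⟫_ℂ =
        ∑ b : K, ⟪U a (Z (a * b, a ^ 2 * b) y), y⟫_ℂ := by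
      rw [← Equiv.sum_comp (Equiv.mulLeft₀ a ha) (fun s => ⟪U a (Z (s, a * s) y), y⟫_ℂ)]
      refine Finset.sum_congr rfl fun b _ => ?_
      have : a * (a * b) = a ^ 2 * b := by ring
      simp only [Equiv.mulLeft₀_apply, this]
    rw [e1, e2, ← Finset.sum_congr rfl (fun b _ => h1 b), Finset.sum_const, Finset.card_univ,
      nsmul_eq_mul, ← mul_assoc, inv_mul_cancel₀ cardK_ne, one_mul]
  have h3 : U a (E y) = E (U a (E y)) := by
    have : U a (E (E y)) = E (U a (E y)) :=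
      avg_comm (U a) (fun s x => (hZU (s, a * s) a x).symm) (E y)
    rw [← this, pE.idem]
  rw [h2, h3, pE.sym]
  refine (Complex.re_le_norm _).trans ((norm_inner_le_norm _ _).trans ?_)
  rw [h.norm_map, sq]

theorem heis2_norm (h : URep U) (h' : URep U') (hZ : URep Z)
    (hrel : ∀ a b x, U a (U' b x) = U' b (U a (Z (a * b, a ^ 2 * b) x)))
    (hZU : ∀ c b x, Z c (U b x) = U b (Z c x))
    (y : H) (hy : ∀ b, U' b y = y) (hE : avg Z y = 0) :
    ‖avg U y‖ ^ 2 ≤ 2 * ((Fintype.card K : ℝ)⁻¹) * ‖y‖ ^ 2 := by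
  classical
  have h0 := (h.avg_proj).re_inner_self y
  have h1 : (⟪avg U y, y⟫_ℂ).re = ((Fintype.card K : ℝ)⁻¹) * ∑ a : K, (⟪U a y, y⟫_ℂ).re := by
    simp only [avg, inner_smul_left, sum_inner, map_inv₀, map_natCast]
    have : ((Fintype.card K : ℂ)⁻¹) = (((Fintype.card K : ℝ)⁻¹ : ℝ) : ℂ) := by push_cast; rfl
    rw [this, Complex.re_ofReal_mul, Complex.re_sum]
  have hb := bessel (fun a : K => avg (slope Z a)) (fun a => (slope_rep hZ a).avg_proj) y
    (fun a a' ha => slope_orth hZ y hE a a' ha)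
  have h2 : ∀ a : K, (⟪U a y, y⟫_ℂ).re ≤
      (if a = 0 then ‖y‖ ^ 2 else 0) + ‖avg (slope Z a) y‖ ^ 2 := by
    intro a
    by_cases ha : a = 0
    · rw [if_pos ha, ha, h.zero]
      have : (⟪y, y⟫_ℂ).re = ‖y‖ ^ 2 := by
        rw [inner_self_eq_norm_sq_to_K]; norm_cast
      rw [this]
      have := sq_nonneg ‖avg (slope Z 0) y‖
      linarith
    · rw [if_neg ha, zero_add]
      exact heis2_coef h h' hZ hrel hZU y hy a ha
  have h3 : ∑ a : K, (⟪U a y, y⟫_ℂ).re ≤ ‖y‖ ^ 2 + ‖y‖ ^ 2 := by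
    refine (Finset.sum_le_sum fun a _ => h2 a).trans ?_
    rw [Finset.sum_add_distrib, Finset.sum_ite_eq']
    simp only [Finset.mem_univ, if_true]
    linarith
  rw [← h0, h1]
  have h4 : (0 : ℝ) ≤ (Fintype.card K : ℝ)⁻¹ := by positivity
  nlinarith

/-- the pair estimate for a twisted Heisenberg pair -/
theorem heis2_pair (h : URep U) (h' : URep U') (hZ : URep Z)
    (hrel : ∀ a b x, U a (U' b x) = U' b (U a (Z (a * b, a ^ 2 * b) x)))
    (hZU : ∀ c b x, Z c (U b x) = U b (Z c x))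
    (hZU' : ∀ c b x, Z c (U' b x) = U' b (Z c x))
    (ε : ℝ) (hε : 0 ≤ ε) (hε1 : ε ≤ 1) (hq : 2 * (Fintype.card K : ℝ)⁻¹ ≤ ε ^ 2) (v : H) :
    0 ≤ 2 * (⟪co (avg U) v, co (avg U') v⟫_ℂ).re +
      ε * (‖co (avg U) v‖ ^ 2 + ‖co (avg U') v‖ ^ 2) := by
  set P := avg U with hP
  set P' := avg U' with hP'
  set E := avg Z with hEd
  have pP : Proj P := h.avg_proj
  have pP' : Proj P' := h'.avg_proj
  have pE : Proj E := hZ.avg_proj
  have hEU : ∀ b x, U b (E x) = E (U b x) := fun b x =>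
    avg_comm (U b) (fun a x => (hZU a b x).symm) x
  have hEU' : ∀ b x, U' b (E x) = E (U' b x) := fun b x =>
    avg_comm (U' b) (fun a x => (hZU' a b x).symm) x
  have hEP : ∀ x, P (E x) = E (P x) := by
    intro x
    have e1 : P (E x) = ((Fintype.card K : ℂ)⁻¹) • ∑ b, E (U b x) := by
      simp only [hP, avg, ← hEU]
    have e2 : E (P x) = ((Fintype.card K : ℂ)⁻¹) • ∑ b, E (U b x) := by
      have : E (P x) = ((Fintype.card K : ℂ)⁻¹) • E (∑ b, U b x) := by
        rw [hP]; simp only [avg]; exact avg_smul _ _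
      rw [this, hEd, avg_sum]
    rw [e1, e2]
  have hEP' : ∀ x, P' (E x) = E (P' x) := by
    intro x
    have e1 : P' (E x) = ((Fintype.card K : ℂ)⁻¹) • ∑ b, E (U' b x) := by
      simp only [hP', avg, ← hEU']
    have e2 : E (P' x) = ((Fintype.card K : ℂ)⁻¹) • ∑ b, E (U' b x) := by
      have : E (P' x) = ((Fintype.card K : ℂ)⁻¹) • E (∑ b, U' b x) := by
        rw [hP']; simp only [avg]; exact avg_smul _ _
      rw [this, hEd, avg_sum]
    rw [e1, e2]
  set v0 := E v with hv0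
  set v1 := v - E v with hv1
  have hE0 : E v0 = v0 := pE.idem v
  have hE1 : E v1 = 0 := by rw [hv1, pE.sub, pE.idem, sub_self]
  have hfix0 : ∀ c, Z c v0 = v0 := fun c => by rw [hv0]; exact hZ.fix_avg c v
  have hcomm : P (P' v0) = P' (P v0) := by
    have e : ∀ a b, U a (U' b v0) = U' b (U a v0) := by
      intro a b; rw [hrel, hfix0]
    simp only [hP, hP', avg, map_smul, map_sum, e]
    rw [← Finset.smul_sum, ← Finset.smul_sum]
    congr 2
    exact Finset.sum_comm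
  have t0 := pair_comm pP pP' v0 hcomm
  have hEy : E (P' v1) = 0 := by rw [← hEP', hE1, pP'.zero]
  have hn : ‖P (P' v1)‖ ^ 2 ≤ 2 * ((Fintype.card K : ℝ)⁻¹) * ‖P' v1‖ ^ 2 :=
    heis2_norm h h' hZ hrel hZU (P' v1) (fun b => h'.fix_avg b v1) hEy
  have hn' : ‖P (P' v1)‖ ≤ ε * ‖P' v1‖ := by
    apply le_of_sq_le_sq _ (by positivity)
    rw [mul_pow]
    exact hn.trans (mul_le_mul_of_nonneg_right hq (by positivity))
  have hsm : ‖⟪P v1, P' v1⟫_ℂ‖ ≤ ε * (‖P v1‖ * ‖P' v1‖) := by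
    have e : ⟪P v1, P' v1⟫_ℂ = ⟪P v1, P (P' v1)⟫_ℂ := by
      rw [← pP.sym, pP.idem]
    rw [e]
    refine (norm_inner_le_norm _ _).trans ?_
    calc ‖P v1‖ * ‖P (P' v1)‖ ≤ ‖P v1‖ * (ε * ‖P' v1‖) :=
          mul_le_mul_of_nonneg_left hn' (norm_nonneg _)
      _ = _ := by ring
  have t1 := pair_small pP pP' ε hε hε1 v1 hsm
  have hsum : v = v0 + v1 := by rw [hv0, hv1]; abel
  have q1 : co P v = co P v0 + co P v1 := by
    rw [← pP.co.add, ← hsum]
  have q2 : co P' v = co P' v0 + co P' v1 := by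
    rw [← pP'.co.add, ← hsum]
  have a0 : E (co P v0) = co P v0 := by
    simp only [co, pE.sub, ← hEP, hE0]
  have a0' : E (co P' v0) = co P' v0 := by
    simp only [co, pE.sub, ← hEP', hE0]
  have a1 : E (co P v1) = 0 := by
    simp only [co, pE.sub, ← hEP, hE1, pP.zero, sub_self]
  have a1' : E (co P' v1) = 0 := by
    simp only [co, pE.sub, ← hEP', hE1, pP'.zero, sub_self]
  have orth : ∀ x y : H, E x = x → E y = 0 → ⟪x, y⟫_ℂ = 0 := by
    intro x y hx hy
    rw [← hx, pE.sym, hy, inner_zero_right]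
  have orth' : ∀ x y : H, E x = 0 → E y = y → ⟪x, y⟫_ℂ = 0 := by
    intro x y hx hy
    rw [← hy, ← pE.sym, hx, inner_zero_left]
  have i1 : (⟪co P v, co P' v⟫_ℂ).re =
      (⟪co P v0, co P' v0⟫_ℂ).re + (⟪co P v1, co P' v1⟫_ℂ).re := by
    rw [q1, q2, inner_add_left, inner_add_right, inner_add_right,
      orth _ _ a0 a1', orth' _ _ a1 a0']
    simp
  have i2 : ‖co P v‖ ^ 2 = ‖co P v0‖ ^ 2 + ‖co P v1‖ ^ 2 := by
    rw [q1, @norm_add_sq ℂ H, orth _ _ a0 a1]
    simp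
  have i3 : ‖co P' v‖ ^ 2 = ‖co P' v0‖ ^ 2 + ‖co P' v1‖ ^ 2 := by
    rw [q2, @norm_add_sq ℂ H, orth _ _ a0' a1']
    simp
  rw [i1, i2, i3]
  have : 0 ≤ ε * (‖co P v0‖ ^ 2 + ‖co P' v0‖ ^ 2) := by positivity
  nlinarith

end hilb

/-- two lines form a twisted Heisenberg pair -/
def HP2 {K : Type} [Field K] {X : Type} [Group X] (u u' : K → X) : Prop :=
  ∃ z : K × K → X, (∀ c d, z (c + d) = z c * z d) ∧
    (∀ a b, u a * u' b = u' b * (u a * z (a * b, a ^ 2 * b))) ∧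
    (∀ c b, z c * u b = u b * z c) ∧ (∀ c b, z c * u' b = u' b * z c)

theorem HP2.of_comm {K : Type} [Field K] {X : Type} [Group X] {u u' : K → X}
    (h : ∀ a b, u a * u' b = u' b * u a) : HP2 u u' :=
  ⟨fun _ => 1, by simp, by simpa using h, by simp, by simp⟩

theorem HP2.of_heis {K : Type} [Field K] {X : Type} [Group X] {u u' : K → X} (z : K → X)
    (hz : ∀ c d, z (c + d) = z c * z d) (h : ∀ a b, u a * u' b = u' b * (u a * z (a * b)))
    (h1 : ∀ c b, z c * u b = u b * z c) (h2 : ∀ c b, z c * u' b = u' b * z c) : HP2 u u' :=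
  ⟨fun c => z c.1, fun c d => hz c.1 d.1, h, fun c => h1 c.1, fun c => h2 c.1⟩

section KT

variable {Γ : Type} [Group Γ]
variable {H : Type} [NormedAddCommGroup H] [InnerProductSpace ℂ H] [CompleteSpace H]

theorem hom_rep {L : Type} [AddCommGroup L] (π : Γ →* (H →L[ℂ] H))
    (hπ : ∀ g, π g ∈ unitary (H →L[ℂ] H)) (u : L → Γ)
    (hadd : ∀ a b, u (a + b) = u a * u b) : URep (fun a => π (u a)) where
  zero v := by
    have h := hadd 0 0
    rw [add_zero] at h
    have h0 : u 0 = 1 := left_eq_mul.mp h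
    simp [h0]
  add a b v := by simp [hadd, map_mul]
  inner a v w := Unitary.inner_map_map (⟨π (u a), hπ _⟩ : unitary (H →L[ℂ] H)) _ _

theorem pi_mul (π : Γ →* (H →L[ℂ] H)) (g h : Γ) (x : H) : π (g * h) x = π g (π h x) := by
  simp [map_mul]

theorem pair_est {K : Type} [Field K] [Fintype K] (hK : 512 ≤ Fintype.card K)
    (π : Γ →* (H →L[ℂ] H)) (hπ : ∀ g, π g ∈ unitary (H →L[ℂ] H)) (u u' : K → Γ)
    (hu : ∀ a b, u (a + b) = u a * u b) (hu' : ∀ a b, u' (a + b) = u' a * u' b)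
    (hp : HP2 u u') (v : H) :
    0 ≤ 2 * (⟪co (avg (fun a => π (u a))) v, co (avg (fun a => π (u' a))) v⟫_ℂ).re +
      (1 / 16) * (‖co (avg (fun a => π (u a))) v‖ ^ 2 +
        ‖co (avg (fun a => π (u' a))) v‖ ^ 2) := by
  obtain ⟨z, hz, hrel, h1, h2⟩ := hp
  refine heis2_pair (hom_rep π hπ u hu) (hom_rep π hπ u' hu') (hom_rep π hπ z hz) ?_ ?_ ?_
    (1 / 16) (by norm_num) (by norm_num) ?_ v
  · intro a b x
    rw [← pi_mul, ← pi_mul, ← pi_mul, hrel, mul_assoc]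
  · intro a b x
    rw [← pi_mul, ← pi_mul, h1]
  · intro a b x
    rw [← pi_mul, ← pi_mul, h2]
  · have : (512 : ℝ) ≤ Fintype.card K := by exact_mod_cast hK
    have h3 : ((Fintype.card K : ℝ))⁻¹ ≤ (512 : ℝ)⁻¹ := inv_anti₀ (by norm_num) this
    linarith

end KT

/-- Property (T) for groups generated by at most 15 lines, any two of which form a twisted
Heisenberg pair. -/
theorem propT_lines2 {Γ : Type} [Group Γ] {K : Type} [Field K] [Fintype K]
    (hK : 512 ≤ Fintype.card K) {n : ℕ} (hn0 : 0 < n) (hn : n ≤ 15) (u : Fin n → K → Γ)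
    (hadd : ∀ i a b, u i (a + b) = u i a * u i b)
    (pair : ∀ i j, i ≠ j → HP2 (u i) (u j) ∨ HP2 (u j) (u i))
    (gen : Subgroup.closure {g | ∃ i t, g = u i t} = ⊤) :
    ∃ S : Finset Γ, ∃ ε : ℝ, 0 < ε ∧
      ∀ (E : Type) [NormedAddCommGroup E] [InnerProductSpace ℂ E] [CompleteSpace E]
        (π : Γ →* (E →L[ℂ] E)),
        (∀ g : Γ, π g ∈ unitary (E →L[ℂ] E)) →
        (∃ v : E, ‖v‖ = 1 ∧ ∀ s ∈ S, ‖(π s) v - v‖ < ε) →
        ∃ w : E, w ≠ 0 ∧ ∀ g : Γ, (π g) w = w := by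
  classical
  have hcard : Fintype.card (Fin n) = n := Fintype.card_fin n
  have hn1 : (1 : ℝ) ≤ n := by exact_mod_cast hn0
  have hn2 : (n : ℝ) ≤ 15 := by exact_mod_cast hn
  have hc : (0 : ℝ) < 1 - ((n : ℝ) - 1) * (1 / 16) := by linarith
  have hc1 : 1 - ((n : ℝ) - 1) * (1 / 16) ≤ 1 := by linarith
  refine ⟨(Finset.univ : Finset (Fin n × K)).image (fun q => u q.1 q.2),
    thr n (1 - ((n : ℝ) - 1) * (1 / 16)), thr_pos _ _ hn1 hc, ?_⟩
  intro H _ _ _ π hπ ⟨v, hv, hsm⟩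
  let Q : Fin n → H → H := fun i => co (avg (fun a => π (u i a)))
  have hrep : ∀ i, URep (fun a => π (u i a)) := fun i => hom_rep π hπ _ (hadd i)
  have hQ : ∀ i, Proj (Q i) := fun i => (hrep i).avg_proj.co
  have hpair : ∀ i j, i ≠ j → ∀ v, 0 ≤ 2 * (⟪Q i v, Q j v⟫_ℂ).re +
      (1 / 16) * (‖Q i v‖ ^ 2 + ‖Q j v‖ ^ 2) := by
    intro i j hij v
    rcases pair i j hij with h | h
    · exact pair_est hK π hπ (u i) (u j) (hadd i) (hadd j) h v
    · have := pair_est hK π hπ (u j) (u i) (hadd j) (hadd i) h v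
      have e : (⟪Q i v, Q j v⟫_ℂ).re = (⟪Q j v, Q i v⟫_ℂ).re := by
        rw [← inner_conj_symm, Complex.conj_re]
      rw [e, add_comm (‖Q i v‖ ^ 2)]
      exact this
  have hDE : ∀ v, (1 - ((n : ℝ) - 1) * (1 / 16)) * EE Q v ≤ ‖DD Q v‖ ^ 2 := by
    intro v
    have := DD_lower Q (1 / 16) hpair v
    rwa [hcard] at this
  have hv' : ∀ i, ‖Q i v‖ ≤ thr (Fintype.card (Fin n) : ℝ) (1 - ((n : ℝ) - 1) * (1 / 16)) := by
    intro i
    rw [hcard]
    refine co_avg_small v _ fun a => ?_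
    exact (hsm (u i a) (Finset.mem_image.mpr ⟨(i, a), Finset.mem_univ _, rfl⟩)).le
  obtain ⟨w, hw, hwi⟩ := exists_invariant (by rw [hcard]; exact hn0) Q hQ _ hc hc1 hDE v hv hv'
  refine ⟨w, hw, ?_⟩
  let St : Subgroup Γ :=
    { carrier := {g | π g w = w}
      one_mem' := by simp
      mul_mem' := by
        intro a b ha hb
        show π (a * b) w = w
        have ha' : π a w = w := ha
        have hb' : π b w = w := hb
        rw [pi_mul, hb', ha']
      inv_mem' := by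
        intro a ha
        show π a⁻¹ w = w
        have ha' : π a w = w := ha
        have h1 : π a⁻¹ (π a w) = w := by
          rw [← pi_mul, inv_mul_cancel]; simp
        rwa [ha'] at h1 }
  have hle : Subgroup.closure {g | ∃ i t, g = u i t} ≤ St := by
    rw [Subgroup.closure_le]
    rintro _ ⟨i, t, rfl⟩
    show π (u i t) w = w
    have h1 : avg (fun a => π (u i a)) w = w := by
      have : w - avg (fun a => π (u i a)) w = 0 := hwi i
      rw [sub_eq_zero] at this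
      exact this.symm
    have h3 := (hrep i).fix_avg t w
    rw [h1] at h3
    exact h3
  intro g
  rw [gen] at hle
  exact hle (Subgroup.mem_top g)

end Pool.Agent.H304Z
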