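import Pool.Agent.H304Z.SL3
import Pool.Agent.H304Z.Fun
import Pool.Agent.H304Z.Pair

set_option autoImplicit false
set_option linter.unusedSectionVars false

/-!
The two groups. Both are semidirect products of a group of circle valued functions on the space
of pairs (linear form, bilinear form) by the elementary group.
-/

namespace Pool.Agent.H304Z

open Matrix Polynomial SemidirectProduct

section general

theorem countable_closure {G : Type} [Group G] (s : Set G) (hs : s.Countable) :
    Countable (Subgroup.closure s) := by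
  have : Countable s := hs
  have : Countable (FreeGroup s) := inferInstanceAs (Countable (Quot _))
  have h : (FreeGroup.lift (fun x : s => (x : G))).range = Subgroup.closure s := by
    rw [FreeGroup.range_lift_eq_closure, Subtype.range_coe]
  rw [← h]
  exact (Set.countable_range (FreeGroup.lift (fun x : s => (x : G)))).to_subtype

theorem countable_sd {B Γ : Type} [Group B] [Group Γ] (φ : Γ →* MulAut B) [Countable B]
    [Countable Γ] : Countable (B ⋊[φ] Γ) :=
  (SemidirectProduct.equivProd (φ := φ)).injective.countable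

/-- restriction of an action on functions to an invariant subgroup -/
noncomputable def resAut {X Γ : Type} [Group Γ] (act : Γ → X → X) (h1 : ∀ ξ, act 1 ξ = ξ)
    (hm : ∀ γ δ ξ, act (γ * δ) ξ = act δ (act γ ξ)) (A : Subgroup (X → Circle))
    (hA : ∀ γ, ∀ a ∈ A, (fun ξ => a (act γ ξ)) ∈ A) : Γ →* MulAut A where
  toFun γ :=
    { toFun := fun a => ⟨fun ξ => a.1 (act γ ξ), hA γ a.1 a.2⟩
      invFun := fun a => ⟨fun ξ => a.1 (act γ⁻¹ ξ), hA γ⁻¹ a.1 a.2⟩
      left_inv := fun a => by
        apply Subtype.ext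
        funext ξ
        show a.1 (act γ (act γ⁻¹ ξ)) = a.1 ξ
        rw [← hm, inv_mul_cancel, h1]
      right_inv := fun a => by
        apply Subtype.ext
        funext ξ
        show a.1 (act γ⁻¹ (act γ ξ)) = a.1 ξ
        rw [← hm, mul_inv_cancel, h1]
      map_mul' := fun a b => rfl }
  map_one' := by
    ext a ξ
    show ((a.1 (act 1 ξ) : Circle) : ℂ) = a.1 ξ
    rw [h1]
  map_mul' γ δ := by
    ext a ξ
    show ((a.1 (act (γ * δ) ξ) : Circle) : ℂ) = a.1 (act δ (act γ ξ))
    rw [hm]

theorem closure_inv {X : Type} (t : X → X) (S : Set (X → Circle))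
    (hS : ∀ a ∈ S, (fun ξ => a (t ξ)) ∈ S) :
    ∀ a ∈ Subgroup.closure S, (fun ξ => a (t ξ)) ∈ Subgroup.closure S := by
  intro a ha
  induction ha using Subgroup.closure_induction with
  | mem x hx => exact Subgroup.subset_closure (hS x hx)
  | one => exact one_mem _
  | mul x y _ _ hx hy => exact mul_mem hx hy
  | inv x _ hx => exact inv_mem hx

theorem span_mul {X : Type} (B : Subgroup (X → Circle)) {f g : X → ℂ}
    (hf : f ∈ Submodule.span ℂ (cf '' (B : Set (X → Circle))))
    (hg : g ∈ Submodule.span ℂ (cf '' (B : Set (X → Circle)))) :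
    f * g ∈ Submodule.span ℂ (cf '' (B : Set (X → Circle))) := by
  obtain ⟨m, rfl⟩ := ev_range B f hf
  obtain ⟨m', rfl⟩ := ev_range B g hg
  rw [← map_mul]
  generalize m * m' = n
  induction n using MonoidAlgebra.induction_linear with
  | zero => simp
  | add a b ha hb => rw [map_add]; exact add_mem ha hb
  | single g c =>
    rw [ev_single]
    exact Submodule.smul_mem _ _ (Submodule.subset_span ⟨g.1, g.2, rfl⟩)

theorem span_closure {X : Type} (B : Subgroup (X → Circle)) (S : Set (X → Circle))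
    (h1 : ∀ a ∈ S, cf a ∈ Submodule.span ℂ (cf '' (B : Set (X → Circle))))
    (h2 : ∀ a ∈ S, cf a⁻¹ ∈ Submodule.span ℂ (cf '' (B : Set (X → Circle)))) :
    ∀ a ∈ Subgroup.closure S, cf a ∈ Submodule.span ℂ (cf '' (B : Set (X → Circle))) := by
  intro a ha
  induction ha using Subgroup.closure_induction'' with
  | mem x hx => exact h1 x hx
  | inv_mem x hx => exact h2 x hx
  | one => exact Submodule.subset_span ⟨1, one_mem _, rfl⟩
  | mul x y _ _ hx hy => rw [map_mul]; exact span_mul B hx hy

theorem inr_inl {B Γ : Type} [Group B] [Group Γ] {φ : Γ →* MulAut B} (γ : Γ) (n : B) :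
    (inr γ : B ⋊[φ] Γ) * inl n = inl (φ γ n) * inr γ := by
  rw [inl_aut]; simp

theorem HP2.sd {K B Γ : Type} [Field K] [CommGroup B] [Group Γ] (φ : Γ →* MulAut B)
    (γ : K → Γ) (n : K → B) (z : K × K → B) (hz : ∀ c d, z (c + d) = z c * z d)
    (h1 : ∀ a b, φ (γ a) (n b) = n b * z (a * b, a ^ 2 * b)) (h2 : ∀ a c, φ (γ a) (z c) = z c) :
    HP2 (fun a => (inr (γ a) : B ⋊[φ] Γ)) (fun b => inl (n b)) := by
  refine ⟨fun c => inl (z c), fun c d => by simp only [hz, map_mul], ?_, ?_, ?_⟩
  · intro a b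
    simp only []
    rw [inr_inl, inr_inl, h1, h2, map_mul, mul_assoc]
  · intro c b
    simp only []
    rw [inr_inl, h2]
  · intro c b
    simp only []
    rw [← map_mul, ← map_mul, mul_comm]

theorem HP2.map {K X Y : Type} [Field K] [Group X] [Group Y] (f : X →* Y) {u u' : K → X}
    (h : HP2 u u') : HP2 (fun a => f (u a)) (fun a => f (u' a)) := by
  obtain ⟨z, hz, h1, h2, h3⟩ := h
  refine ⟨fun c => f (z c), fun c d => by simp only [hz, map_mul], ?_, ?_, ?_⟩
  · intro a b
    simp only []
    rw [← map_mul, h1, map_mul, map_mul]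
  · intro a b
    simp only []
    rw [← map_mul, h2, map_mul]
  · intro a b
    simp only []
    rw [← map_mul, h3, map_mul]

end general

/-- a nontrivial additive character together with a quadratic refinement -/
structure Dat (F : Type) [Field F] where
  /-- the character -/
  ch : F → Circle
  /-- the refinement -/
  h : F → Circle
  ch_add : ∀ s t, ch (s + t) = ch s * ch t
  ch_one : ch 1 ≠ 1
  h_zero : h 0 = 1
  h_mul : ∀ s t, h s * h t = h (s + t) * ch (s * t)

/-- Witt vectors of length two, additively -/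
@[ext] structure W2 (F : Type) where
  /-- first coordinate -/
  a : F
  /-- second coordinate -/
  b : F

instance {F : Type} [Field F] : Add (W2 F) := ⟨fun x y => ⟨x.a + y.a, x.b + y.b + x.a * y.a⟩⟩
instance {F : Type} [Field F] : Zero (W2 F) := ⟨⟨0, 0⟩⟩
instance {F : Type} [Field F] : Neg (W2 F) := ⟨fun x => ⟨-x.a, -x.b + x.a * x.a⟩⟩

theorem W2.add_a {F : Type} [Field F] (x y : W2 F) : (x + y).a = x.a + y.a := rfl
theorem W2.add_b {F : Type} [Field F] (x y : W2 F) : (x + y).b = x.b + y.b + x.a * y.a := rfl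
theorem W2.zero_a {F : Type} [Field F] : (0 : W2 F).a = 0 := rfl
theorem W2.zero_b {F : Type} [Field F] : (0 : W2 F).b = 0 := rfl
theorem W2.neg_a {F : Type} [Field F] (x : W2 F) : (-x).a = -x.a := rfl
theorem W2.neg_b {F : Type} [Field F] (x : W2 F) : (-x).b = -x.b + x.a * x.a := rfl

instance {F : Type} [Field F] : AddCommGroup (W2 F) where
  add_assoc x y z := by
    ext
    · simp only [W2.add_a]; ring
    · simp only [W2.add_a, W2.add_b]; ring
  zero_add x := by
    ext
    · simp only [W2.add_a, W2.zero_a]; ring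
    · simp only [W2.add_b, W2.zero_a, W2.zero_b]; ring
  add_zero x := by
    ext
    · simp only [W2.add_a, W2.zero_a]; ring
    · simp only [W2.add_b, W2.zero_a, W2.zero_b]; ring
  nsmul := nsmulRec
  zsmul := zsmulRec
  neg_add_cancel x := by
    ext
    · simp only [W2.add_a, W2.neg_a, W2.zero_a]; ring
    · simp only [W2.add_b, W2.neg_a, W2.neg_b, W2.zero_b]; ring
  add_comm x y := by
    ext
    · simp only [W2.add_a]; ring
    · simp only [W2.add_b]; ring

theorem exists_dat (F : Type) [Field F] [Finite F] : Nonempty (Dat F) := by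
  have : Finite (W2 F) := Finite.of_injective (fun x : W2 F => (x.a, x.b)) (by
    intro x y h
    ext
    · exact congrArg Prod.fst h
    · exact congrArg Prod.snd h)
  have hne : (⟨0, 1⟩ : W2 F) ≠ 0 := by
    intro h
    have := congrArg W2.b h
    exact one_ne_zero this
  obtain ⟨ψ, hψ⟩ := AddChar.exists_apply_ne_zero.mpr hne
  let Ψ : AddChar (W2 F) Circle := AddChar.circleEquivComplex.symm ψ
  have hΨ : ∀ x, (Ψ x : ℂ) = ψ x := fun x => rfl
  refine ⟨⟨fun t => Ψ ⟨0, t⟩, fun s => Ψ ⟨s, 0⟩, ?_, ?_, ?_, ?_⟩⟩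
  · intro s t
    rw [← AddChar.map_add_eq_mul]
    congr 1
    ext
    · simp [W2.add_a]
    · simp [W2.add_b]
  · intro h
    apply hψ
    rw [← hΨ, h, Circle.coe_one]
  · exact Ψ.map_zero_eq_one
  · intro s t
    rw [← AddChar.map_add_eq_mul, ← AddChar.map_add_eq_mul]
    congr 1
    ext
    · simp [W2.add_a]
    · simp [W2.add_b]

variable {F : Type} [Field F]

theorem Dat.ch_zero (D : Dat F) : D.ch 0 = 1 := by
  have h := D.ch_add 0 0
  rw [add_zero] at h
  exact left_eq_mul.mp h

theorem Dat.ch_neg (D : Dat F) (s : F) : D.ch (-s) = (D.ch s)⁻¹ := by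
  rw [eq_inv_iff_mul_eq_one, ← D.ch_add, neg_add_cancel, D.ch_zero]

/-- the complex character -/
noncomputable def Dat.ac (D : Dat F) : AddChar F ℂ where
  toFun s := D.ch s
  map_zero_eq_one' := by rw [D.ch_zero, Circle.coe_one]
  map_add_eq_mul' s t := by rw [D.ch_add, Circle.coe_mul]

theorem Dat.fourier [Fintype F] (D : Dat F) (u : F → ℂ) :
    ∃ c : F → ℂ, ∀ s, u s = ∑ a, c a * (D.ch (a * s) : ℂ) := by
  classical
  have hp : D.ac.IsPrimitive := by
    apply AddChar.IsPrimitive.of_ne_one
    intro h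
    apply D.ch_one
    apply Circle.coe_injective
    have := DFunLike.congr_fun h 1
    exact this
  have hq : (Fintype.card F : ℂ) ≠ 0 := by exact_mod_cast Fintype.card_ne_zero
  refine ⟨fun a => ∑ t, u t * (Fintype.card F : ℂ)⁻¹ * (D.ch (-(a * t)) : ℂ), ?_⟩
  intro s
  simp only [Finset.sum_mul]
  rw [Finset.sum_comm]
  have h1 : ∀ t, ∑ a, u t * (Fintype.card F : ℂ)⁻¹ * (D.ch (-(a * t)) : ℂ) * (D.ch (a * s) : ℂ)
      = if s = t then u t else 0 := by
    intro t
    have h2 := AddChar.sum_mulShift (s - t) hp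
    have h3 : ∀ a, u t * (Fintype.card F : ℂ)⁻¹ * (D.ch (-(a * t)) : ℂ) * (D.ch (a * s) : ℂ) =
        u t * (Fintype.card F : ℂ)⁻¹ * D.ac (a * (s - t)) := by
      intro a
      have : a * (s - t) = -(a * t) + a * s := by ring
      rw [this, AddChar.map_add_eq_mul, mul_assoc]
      rfl
    simp only [h3]
    rw [← Finset.mul_sum, h2]
    by_cases hst : s = t
    · rw [if_pos hst, if_pos (sub_eq_zero.mpr hst)]
      field_simp
    · rw [if_neg hst, if_neg (sub_ne_zero.mpr hst)]
      simp
  simp only [h1]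
  rw [Finset.sum_ite_eq]
  simp

/-- the module -/
abbrev WW (F : Type) [Field F] : Type := Fin 3 → F[X]

/-- pairs of a linear form and a bilinear form -/
abbrev XX (F : Type) [Field F] : Type := (WW F →ₗ[F] F) × (WW F →ₗ[F] WW F →ₗ[F] F)

/-- the linear action -/
noncomputable def lin (γ : Gam F) : WW F →ₗ[F] WW F := (Matrix.mulVecLin γ.1.1).restrictScalars F

theorem lin_apply (γ : Gam F) (x : WW F) : lin γ x = γ.1.1 *ᵥ x := rfl

theorem lin_one (x : WW F) : lin (1 : Gam F) x = x := by
  rw [lin_apply]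
  exact one_mulVec x

theorem lin_mul (γ δ : Gam F) (x : WW F) : lin (γ * δ) x = lin γ (lin δ x) := by
  rw [lin_apply, lin_apply, lin_apply, mulVec_mulVec]
  rfl

/-- the right action on forms -/
noncomputable def act (γ : Gam F) (ξ : XX F) : XX F :=
  (ξ.1 ∘ₗ lin γ, ξ.2.compl₁₂ (lin γ) (lin γ))

theorem act_fst (γ : Gam F) (ξ : XX F) (x : WW F) : (act γ ξ).1 x = ξ.1 (lin γ x) := rfl

theorem act_snd (γ : Gam F) (ξ : XX F) (x y : WW F) :
    (act γ ξ).2 x y = ξ.2 (lin γ x) (lin γ y) := rfl

theorem act_one (ξ : XX F) : act (1 : Gam F) ξ = ξ := by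
  refine Prod.ext (LinearMap.ext fun x => ?_) (LinearMap.ext fun x => LinearMap.ext fun y => ?_)
  · rw [act_fst, lin_one]
  · rw [act_snd, lin_one, lin_one]

theorem act_mul (γ δ : Gam F) (ξ : XX F) : act (γ * δ) ξ = act δ (act γ ξ) := by
  refine Prod.ext (LinearMap.ext fun x => ?_) (LinearMap.ext fun x => LinearMap.ext fun y => ?_)
  · rw [act_fst, act_fst, act_fst, lin_mul]
  · rw [act_snd, act_snd, act_snd, lin_mul, lin_mul]

/-- basis vectors -/
noncomputable def ee (i : Fin 3) : WW F := Pi.single i 1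

/-- the orbit of the first basis vector -/
def Om (F : Type) [Field F] : Set (WW F) := Set.range (fun γ : Gam F => lin γ (ee 0))

theorem Om_lin (γ : Gam F) {x : WW F} (hx : x ∈ Om F) : lin γ x ∈ Om F := by
  obtain ⟨δ, rfl⟩ := hx
  exact ⟨γ * δ, lin_mul γ δ _⟩

theorem Om_e0 : (ee 0 : WW F) ∈ Om F := ⟨1, lin_one _⟩

theorem lin_tG {i j : Fin 3} (h : i ≠ j) (r : F[X]) (k : Fin 3) :
    lin (tG h r) (ee k) = ee k + (if j = k then r • ee i else 0) := by
  rw [lin_apply]
  show (tv h r).1 *ᵥ _ = _
  rw [tv_coe, add_mulVec, one_mulVec]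
  congr 1
  funext m
  simp only [ee, single_mulVec, Pi.single_apply, Function.update_apply]
  by_cases h1 : j = k <;> by_cases h2 : m = i <;> simp [h1, h2]

variable (D : Dat F)

/-- characters from linear forms -/
noncomputable def wf (a : F) (x : WW F) : XX F → Circle := fun ξ => D.ch (a * ξ.1 x)

/-- characters from bilinear forms -/
noncomputable def bf (a : F) (x : WW F) : XX F → Circle := fun ξ => D.ch (a * ξ.2 x x)

/-- twisted characters -/
noncomputable def ef (c : F) (x : WW F) : XX F → Circle :=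
  fun ξ => D.h (c * ξ.1 x) * D.ch (c ^ 2 * ξ.2 x x)

/-- generators of the untwisted group -/
def SB : Set (XX F → Circle) := {f | ∃ a, ∃ x ∈ Om F, f = wf D a x ∨ f = bf D a x}

/-- generators of the twisted group -/
def SA : Set (XX F → Circle) := {f | ∃ a, ∃ x ∈ Om F, f = wf D a x ∨ f = ef D a x}

/-- the untwisted group -/
noncomputable def BB : Subgroup (XX F → Circle) := Subgroup.closure (SB D)

/-- the twisted group -/
noncomputable def AA : Subgroup (XX F → Circle) := Subgroup.closure (SA D)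

theorem wf_memB (a : F) {x : WW F} (hx : x ∈ Om F) : wf D a x ∈ BB D :=
  Subgroup.subset_closure ⟨a, x, hx, Or.inl rfl⟩

theorem bf_memB (a : F) {x : WW F} (hx : x ∈ Om F) : bf D a x ∈ BB D :=
  Subgroup.subset_closure ⟨a, x, hx, Or.inr rfl⟩

theorem wf_memA (a : F) {x : WW F} (hx : x ∈ Om F) : wf D a x ∈ AA D :=
  Subgroup.subset_closure ⟨a, x, hx, Or.inl rfl⟩

theorem ef_memA (a : F) {x : WW F} (hx : x ∈ Om F) : ef D a x ∈ AA D :=
  Subgroup.subset_closure ⟨a, x, hx, Or.inr rfl⟩

theorem BB_inv (γ : Gam F) : ∀ a ∈ BB D, (fun ξ => a (act γ ξ)) ∈ BB D := by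
  apply closure_inv
  rintro _ ⟨a, x, hx, rfl | rfl⟩
  · exact ⟨a, lin γ x, Om_lin γ hx, Or.inl rfl⟩
  · exact ⟨a, lin γ x, Om_lin γ hx, Or.inr rfl⟩

theorem AA_inv (γ : Gam F) : ∀ a ∈ AA D, (fun ξ => a (act γ ξ)) ∈ AA D := by
  apply closure_inv
  rintro _ ⟨a, x, hx, rfl | rfl⟩
  · exact ⟨a, lin γ x, Om_lin γ hx, Or.inl rfl⟩
  · exact ⟨a, lin γ x, Om_lin γ hx, Or.inr rfl⟩

/-- the action on the untwisted group -/
noncomputable def phB : Gam F →* MulAut (BB D) := resAut act act_one act_mul (BB D) (BB_inv D)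

/-- the action on the twisted group -/
noncomputable def phA : Gam F →* MulAut (AA D) := resAut act act_one act_mul (AA D) (AA_inv D)

/-- the group with property (T) and a kernel of exponent two -/
abbrev PP : Type := BB D ⋊[phB D] Gam F

/-- the group with a kernel of exponent four -/
abbrev QQ : Type := AA D ⋊[phA D] Gam F

theorem countable_Gam [Finite F] : Countable (Gam F) := by
  apply countable_closure
  have : {g : SL3 F | ∃ i a, g = gl i a} = Set.range (fun p : Fin 4 × F => gl p.1 p.2) := by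
    ext g
    constructor
    · rintro ⟨i, a, rfl⟩
      exact ⟨(i, a), rfl⟩
    · rintro ⟨p, rfl⟩
      exact ⟨p.1, p.2, rfl⟩
  rw [this]
  exact Set.countable_range _

theorem countable_PP [Finite F] : Countable (PP D) := by
  have := countable_Gam (F := F)
  have : Countable (BB D) := by
    apply countable_closure
    refine ((Set.countable_range (fun p : F × Gam F => wf D p.1 (lin p.2 (ee 0)))).union
      (Set.countable_range (fun p : F × Gam F => bf D p.1 (lin p.2 (ee 0))))).mono ?_
    rintro _ ⟨a, _, ⟨γ, rfl⟩, rfl | rfl⟩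
    · exact Or.inl ⟨(a, γ), rfl⟩
    · exact Or.inr ⟨(a, γ), rfl⟩
  exact countable_sd _

theorem countable_QQ [Finite F] : Countable (QQ D) := by
  have := countable_Gam (F := F)
  have : Countable (AA D) := by
    apply countable_closure
    refine ((Set.countable_range (fun p : F × Gam F => wf D p.1 (lin p.2 (ee 0)))).union
      (Set.countable_range (fun p : F × Gam F => ef D p.1 (lin p.2 (ee 0))))).mono ?_
    rintro _ ⟨a, _, ⟨γ, rfl⟩, rfl | rfl⟩
    · exact Or.inl ⟨(a, γ), rfl⟩
    · exact Or.inr ⟨(a, γ), rfl⟩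
  exact countable_sd _

end Pool.Agent.H304Z
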