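import Mathlib

set_option autoImplicit false

/-!
A criterion for two groups not to be virtually isomorphic.
-/

namespace Pool.Agent.H304Z

theorem index_comap_ne {A B : Type} [Group A] [Group B] (f : A →* B) (S : Subgroup B)
    (hS : S.index ≠ 0) : (S.comap f).index ≠ 0 := by
  rw [Subgroup.index_comap]
  intro h
  apply hS
  have := Subgroup.relIndex_eq_zero_of_le_right (le_top : f.range ≤ ⊤) h
  rwa [Subgroup.relIndex_top_right] at this

/-- no finite index subgroup normalises a nontrivial abelian subgroup -/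
def NoAb (Γ : Type) [Group Γ] : Prop :=
  ∀ γ : Γ, ∀ S : Subgroup Γ, S.index ≠ 0 → (∀ g ∈ S, Commute γ (g * γ * g⁻¹)) → γ = 1

theorem NoAb.finite_normal {Γ P : Type} [Group Γ] [Group P] (h : NoAb Γ) (π : P →* Γ)
    (hπ : Function.Surjective π) (F : Subgroup P) [hF : F.Normal] [Finite F] (f : P)
    (hf : f ∈ F) : π f = 1 := by
  let S' : Subgroup (ConjAct Γ) := MulAction.stabilizer (ConjAct Γ) (π f)
  have hfin : (MulAction.orbit (ConjAct Γ) (π f)).Finite := by
    have h1 : (Set.range (fun x : F => π x)).Finite := Set.finite_range _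
    refine h1.subset ?_
    rintro _ ⟨g, rfl⟩
    obtain ⟨p, hp⟩ := hπ (ConjAct.ofConjAct g)
    refine ⟨⟨p * f * p⁻¹, hF.conj_mem f hf p⟩, ?_⟩
    show π (p * f * p⁻¹) = g • π f
    rw [ConjAct.smul_def, ← hp, map_mul, map_mul, map_inv]
  have hS' : S'.index ≠ 0 := by
    rw [MulAction.index_stabilizer]
    exact ((Set.ncard_pos hfin).mpr ⟨π f, MulAction.mem_orbit_self _⟩).ne'
  refine h (π f) (S'.comap (ConjAct.toConjAct.toMonoidHom)) (index_comap_ne _ _ hS') ?_
  intro g hg
  have h1 : ConjAct.toConjAct g • π f = π f := hg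
  rw [ConjAct.smul_def, ConjAct.ofConjAct_toConjAct] at h1
  rw [h1]

theorem finite_squares {N : Type} [CommGroup N] (S : Subgroup N) (hS : S.index ≠ 0)
    (h : (Set.range (fun s : S => (s : N) ^ 2)).Finite) :
    (Set.range (fun n : N => n ^ 2)).Finite := by
  let sq : N →* N := powMonoidHom 2
  let M : Subgroup sq.range := S.map sq.rangeRestrict
  have hM : M.index ≠ 0 := fun h0 =>
    hS (eq_zero_of_zero_dvd (h0 ▸ Subgroup.index_map_dvd S sq.rangeRestrict_surjective))
  have hfin : Finite M := by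
    have h1 : Finite (Set.range (fun s : S => (s : N) ^ 2)) := h
    refine Finite.of_injective (β := Set.range (fun s : S => (s : N) ^ 2))
      (fun m => ⟨m.1.1, ?_⟩) ?_
    · obtain ⟨s, hs, e⟩ := m.2
      exact ⟨⟨s, hs⟩, congrArg Subtype.val e⟩
    · intro a b e
      have e' : a.1.1 = b.1.1 := by simpa using e
      exact Subtype.ext (Subtype.ext e')
  have h2 : Nat.card sq.range ≠ 0 := by
    rw [← Subgroup.card_mul_index M]
    exact mul_ne_zero Nat.card_pos.ne' hM
  have h3 : Finite sq.range := Nat.finite_of_card_ne_zero h2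
  exact h3

/-- The criterion. -/
theorem not_virt_iso {P Q Γ N : Type} [Group P] [Group Q] [Group Γ] [CommGroup N]
    (hΓ : NoAb Γ) (π : P →* Γ) (hπ : Function.Surjective π)
    (hker : ∀ p, π p = 1 → p ^ 2 = 1)
    (j : N →* Q) (hj : Function.Injective j)
    (hn : ∀ (q : Q) (n : N), ∃ n', q * j n * q⁻¹ = j n')
    (hinf : (Set.range (fun n : N => n ^ 2)).Infinite) :
    ¬ ∃ (F : Subgroup P) (K : Subgroup Q) (_ : F.Normal) (_ : K.Normal),
        Finite F ∧ Finite K ∧
        ∃ (G₀ : Subgroup (P ⧸ F)) (H₀ : Subgroup (Q ⧸ K)),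
          G₀.index ≠ 0 ∧ H₀.index ≠ 0 ∧ Nonempty (G₀ ≃* H₀) := by
  rintro ⟨F, K, hF, hK, fF, fK, G₀, H₀, hG₀, hH₀, ⟨e⟩⟩
  have hFker : ∀ f ∈ F, π f = 1 := fun f hf => hΓ.finite_normal π hπ F f hf
  let π' : P ⧸ F →* Γ := QuotientGroup.lift F π hFker
  have hπ'mk : ∀ p : P, π' (QuotientGroup.mk p) = π p := fun p => rfl
  have hπ' : Function.Surjective π' := by
    intro γ
    obtain ⟨p, rfl⟩ := hπ γ
    exact ⟨QuotientGroup.mk p, rfl⟩
  have hker' : ∀ x : P ⧸ F, π' x = 1 → x ^ 2 = 1 := by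
    intro x hx
    obtain ⟨p, rfl⟩ := QuotientGroup.mk_surjective x
    rw [← QuotientGroup.mk_pow, hker p hx]
    rfl
  have hΓ1 : (G₀.map π').index ≠ 0 := fun h0 =>
    hG₀ (eq_zero_of_zero_dvd (h0 ▸ Subgroup.index_map_dvd G₀ hπ'))
  let k : N →* Q ⧸ K := (QuotientGroup.mk' K).comp j
  let S : Subgroup N := H₀.comap k
  have hS : S.index ≠ 0 := index_comap_ne k H₀ hH₀
  apply hinf
  refine finite_squares S hS ?_
  have hsq : ∀ s : S, j ((s : N) ^ 2) ∈ K := by
    rintro ⟨n, hnS⟩
    let y : H₀ := ⟨k n, hnS⟩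
    let x : G₀ := e.symm y
    have h1 : π' x = 1 := by
      refine hΓ _ (G₀.map π') hΓ1 ?_
      rintro _ ⟨u, hu, rfl⟩
      let u' : G₀ := ⟨u, hu⟩
      obtain ⟨q, hq⟩ := QuotientGroup.mk_surjective ((e u' : H₀) : Q ⧸ K)
      obtain ⟨n', hn'⟩ := hn q n
      have c1 : Commute y (e u' * y * (e u')⁻¹) := by
        apply Subtype.ext
        have e1 : ((e u' * y * (e u')⁻¹ : H₀) : Q ⧸ K) = k n' := by
          show ((e u' : H₀) : Q ⧸ K) * k n * ((e u' : H₀) : Q ⧸ K)⁻¹ = k n'
          rw [← hq]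
          show (QuotientGroup.mk q : Q ⧸ K) * QuotientGroup.mk (j n) *
            (QuotientGroup.mk q)⁻¹ = QuotientGroup.mk (j n')
          rw [← hn']
          rfl
        show k n * ((e u' * y * (e u')⁻¹ : H₀) : Q ⧸ K) =
          ((e u' * y * (e u')⁻¹ : H₀) : Q ⧸ K) * k n
        rw [e1, ← map_mul, ← map_mul, mul_comm]
      have c2 : Commute x (u' * x * u'⁻¹) := by
        have := c1.map e.symm
        simpa only [map_mul, map_inv, MulEquiv.symm_apply_apply] using this
      have c3 := c2.map (π'.comp G₀.subtype)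
      simp only [map_mul, map_inv] at c3
      exact c3
    have h2 : x ^ 2 = 1 := Subtype.ext (hker' _ h1)
    have h3 : y ^ 2 = 1 := by
      have := congrArg e h2
      rwa [map_pow, map_one, MulEquiv.apply_symm_apply] at this
    have h4 : k (n ^ 2) = 1 := by
      rw [map_pow]
      exact congrArg Subtype.val h3
    exact (QuotientGroup.eq_one_iff _).mp h4
  have hfin : (j ⁻¹' (K : Set Q)).Finite := Set.Finite.preimage hj.injOn fK
  refine hfin.subset ?_
  rintro _ ⟨s, rfl⟩
  exact hsq s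

end Pool.Agent.H304Z
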