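import Pool.Agent.H304Z.Main

set_option autoImplicit false
set_option linter.unusedSectionVars false

/-!
Property (T) for the untwisted group.
-/

namespace Pool.Agent.H304Z

open Matrix Polynomial SemidirectProduct

variable {F : Type} [Field F] (D : Dat F)

/-- the four lines inside the elementary group -/
noncomputable def gG (i : Fin 4) (a : F) : Gam F := ⟨gl i a, gl_mem i a⟩

theorem gG0 (a : F) : gG 0 a = tG n01 (C a) := rfl
theorem gG1 (a : F) : gG 1 a = tG n01 (C a * X) := rfl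
theorem gG2 (a : F) : gG 2 a = tG n12 (C a) := rfl
theorem gG3 (a : F) : gG 3 a = tG n20 (C a) := rfl

theorem tG_add {i j : Fin 3} (h : i ≠ j) (r s : F[X]) : tG h (r + s) = tG h r * tG h s :=
  Subtype.ext (tv_add h r s)

theorem tG_comm {i j k l : Fin 3} (hij : i ≠ j) (hkl : k ≠ l) (h1 : j ≠ k) (h2 : l ≠ i)
    (r s : F[X]) : tG hij r * tG hkl s = tG hkl s * tG hij r :=
  Subtype.ext (tv_comm hij hkl h1 h2 r s)

theorem tG_heis {i j k : Fin 3} (hij : i ≠ j) (hjk : j ≠ k) (hik : i ≠ k) (r s : F[X]) :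
    tG hij r * tG hjk s = tG hjk s * (tG hij r * tG hik (r * s)) :=
  Subtype.ext (tv_heis hij hjk hik r s)

theorem tG_pair {i j k : Fin 3} (hij : i ≠ j) (hjk : j ≠ k) (hik : i ≠ k) (p q : F[X]) :
    HP2 (fun a : F => tG hij (C a * p)) (fun a : F => tG hjk (C a * q)) := by
  refine HP2.of_heis (fun c : F => tG hik (C c * (p * q))) ?_ ?_ ?_ ?_
  · intro c d
    rw [map_add, add_mul, tG_add]
  · intro a b
    have e : C (a * b) * (p * q) = C a * p * (C b * q) := by rw [map_mul]; ring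
    rw [tG_heis hij hjk hik, e]
  · intro c b
    exact tG_comm hik hij hik.symm hij.symm _ _
  · intro c b
    exact tG_comm hik hjk hjk.symm hik.symm _ _

theorem gG_add (i : Fin 4) (a b : F) : gG i (a + b) = gG i a * gG i b := by
  fin_cases i
  · show tG n01 (C (a + b)) = tG n01 (C a) * tG n01 (C b)
    rw [map_add, tG_add]
  · show tG n01 (C (a + b) * X) = tG n01 (C a * X) * tG n01 (C b * X)
    rw [map_add, add_mul, tG_add]
  · show tG n12 (C (a + b)) = tG n12 (C a) * tG n12 (C b)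
    rw [map_add, tG_add]
  · show tG n20 (C (a + b)) = tG n20 (C a) * tG n20 (C b)
    rw [map_add, tG_add]

theorem p01 : HP2 (gG 0 : F → Gam F) (gG 1) :=
  HP2.of_comm fun _ _ => tG_comm n01 n01 n10 n10 _ _

theorem p02 : HP2 (gG 0 : F → Gam F) (gG 2) := by
  have := tG_pair (F := F) n01 n12 n02 1 1
  simp only [mul_one] at this
  exact this

theorem p12 : HP2 (gG 1 : F → Gam F) (gG 2) := by
  have := tG_pair (F := F) n01 n12 n02 X 1
  simp only [mul_one] at this
  exact this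

theorem p23 : HP2 (gG 2 : F → Gam F) (gG 3) := by
  have := tG_pair (F := F) n12 n20 n10 1 1
  simp only [mul_one] at this
  exact this

theorem p30 : HP2 (gG 3 : F → Gam F) (gG 0) := by
  have := tG_pair (F := F) n20 n01 n21 1 1
  simp only [mul_one] at this
  exact this

theorem p31 : HP2 (gG 3 : F → Gam F) (gG 1) := by
  have := tG_pair (F := F) n20 n01 n21 1 X
  simp only [mul_one] at this
  exact this

/-- linear characters in the untwisted group -/
noncomputable def wB (a : F) {x : WW F} (hx : x ∈ Om F) : BB D := ⟨wf D a x, wf_memB D a hx⟩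

/-- quadratic characters in the untwisted group -/
noncomputable def bB (a : F) {x : WW F} (hx : x ∈ Om F) : BB D := ⟨bf D a x, bf_memB D a hx⟩

theorem wB_add (a b : F) {x : WW F} (hx : x ∈ Om F) :
    wB D (a + b) hx = wB D a hx * wB D b hx := by
  apply Subtype.ext
  funext ξ
  show D.ch ((a + b) * ξ.1 x) = D.ch (a * ξ.1 x) * D.ch (b * ξ.1 x)
  rw [add_mul, D.ch_add]

theorem bB_add (a b : F) {x : WW F} (hx : x ∈ Om F) :
    bB D (a + b) hx = bB D a hx * bB D b hx := by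
  apply Subtype.ext
  funext ξ
  show D.ch ((a + b) * ξ.2 x x) = D.ch (a * ξ.2 x x) * D.ch (b * ξ.2 x x)
  rw [add_mul, D.ch_add]

theorem ph_wB (γ : Gam F) (a : F) {x : WW F} (hx : x ∈ Om F) :
    phB D γ (wB D a hx) = wB D a (Om_lin γ hx) := rfl

theorem ph_bB (γ : Gam F) (a : F) {x : WW F} (hx : x ∈ Om F) :
    phB D γ (bB D a hx) = bB D a (Om_lin γ hx) := rfl

theorem wB_congr (a : F) {x y : WW F} (hx : x ∈ Om F) (hy : y ∈ Om F) (h : x = y) :
    wB D a hx = wB D a hy := by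
  subst h
  rfl

theorem bB_congr (a : F) {x y : WW F} (hx : x ∈ Om F) (hy : y ∈ Om F) (h : x = y) :
    bB D a hx = bB D a hy := by
  subst h
  rfl

theorem sd_comm (γ : F → Gam F) (n : F → BB D) (h : ∀ a b, phB D (γ a) (n b) = n b) :
    HP2 (fun a => (inr (γ a) : PP D)) (fun b => inl (n b)) :=
  HP2.of_comm fun a b => by rw [inr_inl, h]

theorem fix0 (i : Fin 4) (hi : i ≠ 3) (a : F) : lin (gG i a) (ee 0) = ee 0 := by
  fin_cases i
  · show lin (tG n01 (C a)) (ee 0) = ee 0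
    rw [lin_tG, if_neg n10, add_zero]
  · show lin (tG n01 (C a * X)) (ee 0) = ee 0
    rw [lin_tG, if_neg n10, add_zero]
  · show lin (tG n12 (C a)) (ee 0) = ee 0
    rw [lin_tG, if_neg n20, add_zero]
  · exact absurd rfl hi

theorem pw (i : Fin 4) (hi : i ≠ 3) :
    HP2 (fun a => (inr (gG i a) : PP D)) (fun b => inl (wB D b Om_e0)) :=
  sd_comm D _ _ fun a b => by
    rw [ph_wB]
    exact wB_congr D b _ _ (fix0 i hi a)

theorem pb (i : Fin 4) (hi : i ≠ 3) :
    HP2 (fun a => (inr (gG i a) : PP D)) (fun b => inl (bB D b Om_e0)) :=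
  sd_comm D _ _ fun a b => by
    rw [ph_bB]
    exact bB_congr D b _ _ (fix0 i hi a)

theorem lin3_e0 (a : F) : lin (gG 3 a) (ee 0) = ee 0 + a • ee 2 := by
  rw [gG3, lin_t20, ← Polynomial.algebraMap_eq, algebraMap_smul]

theorem lin3_e2 (a : F) : lin (gG 3 a) (ee 2) = ee 2 := by
  rw [gG3, lin_tG, if_neg n02, add_zero]

theorem Om_e02 : (ee 0 + ee 2 : WW F) ∈ Om F := ⟨gG 3 1, by
  show lin (gG 3 1) (ee 0) = _
  rw [lin3_e0, one_smul]⟩

theorem Om_e2 : (ee 2 : WW F) ∈ Om F := by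
  have h := Om_lin (tG n02 (-1)) (Om_e02 (F := F))
  rw [map_add, lin_tG, lin_tG, if_neg n20, if_pos rfl] at h
  have e : (ee 0 + 0 + (ee 2 + (-1 : F[X]) • ee 0) : WW F) = ee 2 := by
    rw [neg_one_smul]; abel
  rwa [e] at h

theorem pw3 : HP2 (fun a => (inr (gG 3 a) : PP D)) (fun b => inl (wB D b Om_e0)) := by
  refine HP2.sd (phB D) _ _ (fun c => wB D c.1 Om_e2) (fun c d => wB_add D c.1 d.1 _) ?_ ?_
  · intro a b
    apply Subtype.ext
    funext ξ
    show D.ch (b * ξ.1 (lin (gG 3 a) (ee 0))) =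
      D.ch (b * ξ.1 (ee 0)) * D.ch (a * b * ξ.1 (ee 2))
    rw [lin3_e0, ← D.ch_add, map_add, map_smul, smul_eq_mul]
    congr 1
    ring
  · intro a c
    rw [ph_wB]
    exact wB_congr D _ _ _ (lin3_e2 a)

/-- the central elements -/
noncomputable def zf (c : F × F) : XX F → Circle := fun ξ =>
  D.ch (c.1 * (ξ.2 (ee 0) (ee 2) + ξ.2 (ee 2) (ee 0)) + c.2 * ξ.2 (ee 2) (ee 2))

theorem zf_mem (c : F × F) : zf D c ∈ BB D := by
  have e : zf D c = bf D c.1 (ee 0 + ee 2) * bf D (-c.1) (ee 0) * bf D (c.2 - c.1) (ee 2) := by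
    funext ξ
    simp only [zf, bf, Pi.mul_apply, ← D.ch_add, map_add, LinearMap.add_apply]
    congr 1
    ring
  rw [e]
  exact mul_mem (mul_mem (bf_memB D _ Om_e02) (bf_memB D _ Om_e0)) (bf_memB D _ Om_e2)

theorem pb3 [CharP F 2] :
    HP2 (fun a => (inr (gG 3 a) : PP D)) (fun b => inl (bB D b Om_e0)) := by
  refine HP2.sd (phB D) _ _ (fun c => ⟨zf D c, zf_mem D c⟩) ?_ ?_ ?_
  · intro c d
    apply Subtype.ext
    funext ξ
    show zf D (c + d) ξ = zf D c ξ * zf D d ξ
    simp only [zf, ← D.ch_add, Prod.fst_add, Prod.snd_add]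
    congr 1
    ring
  · intro a b
    apply Subtype.ext
    funext ξ
    show D.ch (b * ξ.2 (lin (gG 3 a) (ee 0)) (lin (gG 3 a) (ee 0))) =
      D.ch (b * ξ.2 (ee 0) (ee 0)) * zf D (a * b, a ^ 2 * b) ξ
    simp only [lin3_e0, zf, ← D.ch_add, map_add, map_smul, smul_eq_mul, LinearMap.add_apply,
      LinearMap.smul_apply]
    congr 1
    ring
  · intro a c
    apply Subtype.ext
    funext ξ
    show zf D c (act (gG 3 a) ξ) = zf D c ξ
    simp only [zf, act_snd, lin3_e0, lin3_e2, map_add, map_smul, smul_eq_mul, LinearMap.add_apply,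
      LinearMap.smul_apply]
    congr 1
    have h2 : (2 : F) = 0 := CharTwo.two_eq_zero
    linear_combination (c.1 * a * ξ.2 (ee 2) (ee 2)) * h2

theorem pwb : HP2 (fun a => (inl (wB D a Om_e0) : PP D)) (fun b => inl (bB D b Om_e0)) :=
  HP2.of_comm fun a b => by rw [← map_mul, ← map_mul, mul_comm]

/-- the six lines -/
noncomputable def uu : Fin 6 → F → PP D :=
  ![fun a => inr (gG 0 a), fun a => inr (gG 1 a), fun a => inr (gG 2 a), fun a => inr (gG 3 a),
    fun a => inl (wB D a Om_e0), fun a => inl (bB D a Om_e0)]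

theorem uu_add (i : Fin 6) (a b : F) : uu D i (a + b) = uu D i a * uu D i b := by
  fin_cases i
  · show inr (gG 0 (a + b)) = inr (gG 0 a) * inr (gG 0 b)
    rw [gG_add, map_mul]
  · show inr (gG 1 (a + b)) = inr (gG 1 a) * inr (gG 1 b)
    rw [gG_add, map_mul]
  · show inr (gG 2 (a + b)) = inr (gG 2 a) * inr (gG 2 b)
    rw [gG_add, map_mul]
  · show inr (gG 3 (a + b)) = inr (gG 3 a) * inr (gG 3 b)
    rw [gG_add, map_mul]
  · show inl (wB D (a + b) Om_e0) = inl (wB D a Om_e0) * inl (wB D b Om_e0)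
    rw [wB_add, map_mul]
  · show inl (bB D (a + b) Om_e0) = inl (bB D a Om_e0) * inl (bB D b Om_e0)
    rw [bB_add, map_mul]

theorem six_pairs (R : Fin 6 → Fin 6 → Prop) (a01 : R 0 1) (a02 : R 0 2) (a12 : R 1 2)
    (a23 : R 2 3) (a30 : R 3 0) (a31 : R 3 1) (a04 : R 0 4) (a14 : R 1 4) (a24 : R 2 4)
    (a34 : R 3 4) (a05 : R 0 5) (a15 : R 1 5) (a25 : R 2 5) (a35 : R 3 5) (a45 : R 4 5)
    (i j : Fin 6) (hij : i ≠ j) : R i j ∨ R j i := by
  fin_cases i <;> fin_cases j <;>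
    first
    | exact absurd rfl hij
    | (left; assumption)
    | (right; assumption)

theorem uu_pair [CharP F 2] (i j : Fin 6) (hij : i ≠ j) :
    HP2 (uu D i) (uu D j) ∨ HP2 (uu D j) (uu D i) := by
  have a01 : HP2 (uu D 0) (uu D 1) := p01.map (inr : Gam F →* PP D)
  have a02 : HP2 (uu D 0) (uu D 2) := p02.map (inr : Gam F →* PP D)
  have a12 : HP2 (uu D 1) (uu D 2) := p12.map (inr : Gam F →* PP D)
  have a23 : HP2 (uu D 2) (uu D 3) := p23.map (inr : Gam F →* PP D)
  have a30 : HP2 (uu D 3) (uu D 0) := p30.map (inr : Gam F →* PP D)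
  have a31 : HP2 (uu D 3) (uu D 1) := p31.map (inr : Gam F →* PP D)
  have a04 : HP2 (uu D 0) (uu D 4) := pw D 0 (by decide)
  have a14 : HP2 (uu D 1) (uu D 4) := pw D 1 (by decide)
  have a24 : HP2 (uu D 2) (uu D 4) := pw D 2 (by decide)
  have a34 : HP2 (uu D 3) (uu D 4) := pw3 D
  have a05 : HP2 (uu D 0) (uu D 5) := pb D 0 (by decide)
  have a15 : HP2 (uu D 1) (uu D 5) := pb D 1 (by decide)
  have a25 : HP2 (uu D 2) (uu D 5) := pb D 2 (by decide)
  have a35 : HP2 (uu D 3) (uu D 5) := pb3 D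
  have a45 : HP2 (uu D 4) (uu D 5) := pwb D
  exact six_pairs (fun i j => HP2 (uu D i) (uu D j)) a01 a02 a12 a23 a30 a31 a04 a14 a24 a34
    a05 a15 a25 a35 a45 i j hij

theorem uu_gen : Subgroup.closure {g | ∃ i t, g = uu D i t} = ⊤ := by
  set L := Subgroup.closure {g | ∃ i t, g = uu D i t} with hL
  have hu : ∀ i t, uu D i t ∈ L := fun i t => Subgroup.subset_closure ⟨i, t, rfl⟩
  have hr : ∀ γ : Gam F, (inr γ : PP D) ∈ L := by
    rintro ⟨g, hg⟩
    induction hg using Subgroup.closure_induction with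
    | mem x hx =>
      obtain ⟨i, a, rfl⟩ := hx
      fin_cases i
      · exact hu 0 a
      · exact hu 1 a
      · exact hu 2 a
      · exact hu 3 a
    | one => exact (map_one (inr : Gam F →* PP D)) ▸ one_mem L
    | mul x y hx hy h1 h2 =>
      have := mul_mem h1 h2
      rw [← map_mul] at this
      exact this
    | inv x hx h1 =>
      have := inv_mem h1
      rw [← map_inv] at this
      exact this
  have hl : ∀ b : BB D, (inl b : PP D) ∈ L := by
    rintro ⟨f, hf⟩
    induction hf using Subgroup.closure_induction with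
    | mem x hx =>
      obtain ⟨a, _, ⟨γ, rfl⟩, rfl | rfl⟩ := hx
      · have h1 : (inl (phB D γ (wB D a Om_e0)) : PP D) ∈ L := by
          rw [inl_aut]
          exact mul_mem (mul_mem (hr γ) (hu 4 a)) (hr γ⁻¹)
        exact h1
      · have h1 : (inl (phB D γ (bB D a Om_e0)) : PP D) ∈ L := by
          rw [inl_aut]
          exact mul_mem (mul_mem (hr γ) (hu 5 a)) (hr γ⁻¹)
        exact h1
    | one => exact (map_one (inl : BB D →* PP D)) ▸ one_mem L
    | mul x y hx hy h1 h2 =>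
      have := mul_mem h1 h2
      rw [← map_mul] at this
      exact this
    | inv x hx h1 =>
      have := inv_mem h1
      rw [← map_inv] at this
      exact this
  rw [eq_top_iff]
  intro p _
  rw [← inl_left_mul_inr_right p]
  exact mul_mem (hl _) (hr _)

theorem propT_PP [Fintype F] [CharP F 2] (hF : 512 ≤ Fintype.card F) :
    ∃ S : Finset (PP D), ∃ ε : ℝ, 0 < ε ∧
      ∀ (E : Type) [NormedAddCommGroup E] [InnerProductSpace ℂ E] [CompleteSpace E]
        (π : PP D →* (E →L[ℂ] E)),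
        (∀ g : PP D, π g ∈ unitary (E →L[ℂ] E)) →
        (∃ v : E, ‖v‖ = 1 ∧ ∀ s ∈ S, ‖(π s) v - v‖ < ε) →
        ∃ w : E, w ≠ 0 ∧ ∀ g : PP D, (π g) w = w :=
  propT_lines2 hF (n := 6) (by norm_num) (by norm_num) (uu D) (uu_add D) (uu_pair D) (uu_gen D)

theorem vn_PQ [Fintype F] [CharP F 2] :
    ∃ Φ : (L2 (PP D) →L[ℂ] L2 (PP D)) → (L2 (QQ D) →L[ℂ] L2 (QQ D)),
      Set.BijOn Φ (Cm (PP D)) (Cm (QQ D)) ∧
      ∀ x ∈ Cm (PP D), ∀ y ∈ Cm (PP D),
        Φ (x + y) = Φ x + Φ y ∧ Φ (x * y) = Φ x * Φ y ∧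
        Φ (star x) = star (Φ x) ∧ ∀ c : ℂ, Φ (c • x) = c • Φ x :=
  vn_semidirect (AA D) (BB D) act (phA D) (phB D) (fun _ _ _ => rfl) (fun _ _ _ => rfl)
    (BB_char D) (AA_k D) (AA_span D) (BB_span D)

theorem cube_root (c : GaloisField 2 9) (h : c ^ 3 = 1) : c = 1 := by
  have : Fintype (GaloisField 2 9) := Fintype.ofFinite _
  have hc : Fintype.card (GaloisField 2 9) = 512 := by
    rw [← Nat.card_eq_fintype_card, GaloisField.card 2 9 (by norm_num)]
    norm_num
  have h1 := FiniteField.pow_card c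
  rw [hc] at h1
  have h2 : c ^ 512 = c ^ 2 := by
    have : c ^ 512 = (c ^ 3) ^ 170 * c ^ 2 := by ring
    rw [this, h, one_pow, one_mul]
  have h3 : c ^ 2 = c := by rw [← h2, h1]
  have h4 : c ^ 3 = c := by
    calc c ^ 3 = c ^ 2 * c := by ring
      _ = c ^ 2 := by rw [h3, ← sq, h3]
      _ = c := h3
  rw [← h4, h]

end Pool.Agent.H304Z
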