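import Pool.Agent.H304Z.NVI

set_option autoImplicit false
set_option linter.unusedSectionVars false

/-!
The elementary group of degree three over a polynomial ring.
-/

namespace Pool.Agent.H304Z

open Matrix Polynomial

variable {F : Type} [Field F]

/-- the special linear group of degree three over the polynomial ring -/
abbrev SL3 (F : Type) [Field F] : Type := Matrix.SpecialLinearGroup (Fin 3) F[X]

/-- transvections -/
noncomputable def tv {i j : Fin 3} (h : i ≠ j) (r : F[X]) : SL3 F :=
  SpecialLinearGroup.transvection h r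

theorem tv_coe {i j : Fin 3} (h : i ≠ j) (r : F[X]) :
    (tv h r).1 = (1 : Matrix (Fin 3) (Fin 3) F[X]) + single i j r := rfl

theorem tv_add {i j : Fin 3} (h : i ≠ j) (r s : F[X]) : tv h (r + s) = tv h r * tv h s :=
  SpecialLinearGroup.transvection_add h r s

theorem tv_inv {i j : Fin 3} (h : i ≠ j) (r : F[X]) : (tv h r)⁻¹ = tv h (-r) :=
  SpecialLinearGroup.transvection_inv h r

theorem tv_comm {i j k l : Fin 3} (hij : i ≠ j) (hkl : k ≠ l) (h1 : j ≠ k) (h2 : l ≠ i)
    (r s : F[X]) : tv hij r * tv hkl s = tv hkl s * tv hij r := by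
  apply Subtype.ext
  show (tv hij r).1 * (tv hkl s).1 = (tv hkl s).1 * (tv hij r).1
  simp only [tv_coe, mul_add, add_mul, one_mul, mul_one, single_mul_single_of_ne _ _ _ _ h1,
    single_mul_single_of_ne _ _ _ _ h2]
  abel

theorem tv_heis {i j k : Fin 3} (hij : i ≠ j) (hjk : j ≠ k) (hik : i ≠ k) (r s : F[X]) :
    tv hij r * tv hjk s = tv hjk s * (tv hij r * tv hik (r * s)) := by
  apply Subtype.ext
  show (tv hij r).1 * (tv hjk s).1 = (tv hjk s).1 * ((tv hij r).1 * (tv hik (r * s)).1)
  simp only [tv_coe, mul_add, add_mul, one_mul, mul_one, single_mul_single_same,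
    single_mul_single_of_ne _ _ _ _ hij.symm, single_mul_single_of_ne _ _ _ _ hik.symm,
    add_zero]
  abel

theorem n01 : (0 : Fin 3) ≠ 1 := by decide
theorem n02 : (0 : Fin 3) ≠ 2 := by decide
theorem n10 : (1 : Fin 3) ≠ 0 := by decide
theorem n12 : (1 : Fin 3) ≠ 2 := by decide
theorem n20 : (2 : Fin 3) ≠ 0 := by decide
theorem n21 : (2 : Fin 3) ≠ 1 := by decide

/-- the four generating lines -/
noncomputable def gl : Fin 4 → F → SL3 F :=
  ![fun a => tv n01 (C a), fun a => tv n01 (C a * X), fun a => tv n12 (C a),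
    fun a => tv n20 (C a)]

variable (F) in
/-- the group generated by the four lines -/
noncomputable def Gam : Subgroup (SL3 F) := Subgroup.closure {g | ∃ i a, g = gl i a}

theorem gl_mem (i : Fin 4) (a : F) : gl i a ∈ Gam F := Subgroup.subset_closure ⟨i, a, rfl⟩

theorem tv_step {i j k : Fin 3} (hij : i ≠ j) (hjk : j ≠ k) (hik : i ≠ k) {r s : F[X]}
    (h1 : tv hij r ∈ Gam F) (h2 : tv hjk s ∈ Gam F) : tv hik (r * s) ∈ Gam F := by
  have e : tv hik (r * s) = (tv hij r)⁻¹ * (tv hjk s)⁻¹ * (tv hij r * tv hjk s) := by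
    rw [tv_heis hij hjk hik]; group
  rw [e]
  exact mul_mem (mul_mem (inv_mem h1) (inv_mem h2)) (mul_mem h1 h2)

theorem tv_all {r : F[X]} (h : tv n01 r ∈ Gam F) {i j : Fin 3} (hij : i ≠ j) :
    tv hij r ∈ Gam F := by
  have o01 : tv n01 (1 : F[X]) ∈ Gam F := by simpa [gl] using gl_mem (F := F) 0 1
  have o12 : tv n12 (1 : F[X]) ∈ Gam F := by simpa [gl] using gl_mem (F := F) 2 1
  have o20 : tv n20 (1 : F[X]) ∈ Gam F := by simpa [gl] using gl_mem (F := F) 3 1
  have o10 : tv n10 (1 : F[X]) ∈ Gam F := by simpa using tv_step n12 n20 n10 o12 o20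
  have r02 : tv n02 r ∈ Gam F := by simpa using tv_step n01 n12 n02 h o12
  have r21 : tv n21 r ∈ Gam F := by simpa using tv_step n20 n01 n21 o20 h
  have r12 : tv n12 r ∈ Gam F := by simpa using tv_step n10 n02 n12 o10 r02
  have r20 : tv n20 r ∈ Gam F := by simpa using tv_step n21 n10 n20 r21 o10
  have r10 : tv n10 r ∈ Gam F := by simpa using tv_step n12 n20 n10 r12 o20
  fin_cases i <;> fin_cases j
  · exact absurd rfl hij
  · exact h
  · exact r02
  · exact r10
  · exact absurd rfl hij
  · exact r12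
  · exact r20
  · exact r21
  · exact absurd rfl hij

theorem tv_mem {i j : Fin 3} (hij : i ≠ j) (r : F[X]) : tv hij r ∈ Gam F := by
  refine tv_all ?_ hij
  have hX : tv n01 (X : F[X]) ∈ Gam F := by simpa [gl] using gl_mem (F := F) 1 1
  induction r using Polynomial.induction_on with
  | C a => exact gl_mem (F := F) 0 a
  | add p q hp hq => rw [tv_add]; exact mul_mem hp hq
  | monomial n a h =>
    rw [pow_succ, ← mul_assoc]
    exact tv_step n02 n21 n01 (tv_all h n02) (tv_all hX n21)

/-- transvections in the group -/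
noncomputable def tG {i j : Fin 3} (h : i ≠ j) (r : F[X]) : Gam F := ⟨tv h r, tv_mem h r⟩

/-- transvections as a homomorphism -/
noncomputable def tHom {i j : Fin 3} (h : i ≠ j) : Multiplicative F[X] →* Gam F where
  toFun r := tG h r.toAdd
  map_one' := Subtype.ext (SpecialLinearGroup.transvection_coeff_zero h)
  map_mul' r s := Subtype.ext (tv_add h r.toAdd s.toAdd)

theorem two_elements (I : Subgroup (Multiplicative F[X])) (hI : I.index ≠ 0) :
    ∃ r s : F[X], r ≠ 0 ∧ s ≠ 0 ∧ r ≠ s ∧ Multiplicative.ofAdd r ∈ I ∧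
      Multiplicative.ofAdd s ∈ I := by
  have hinf : (I : Set (Multiplicative F[X])).Infinite := by
    intro hfin
    have h1 : Finite I := hfin
    have h2 : Nat.card (Multiplicative F[X]) ≠ 0 := by
      rw [← Subgroup.card_mul_index I]
      exact mul_ne_zero Nat.card_pos.ne' hI
    have h3 : Finite (Multiplicative F[X]) := Nat.finite_of_card_ne_zero h2
    have h4 : Infinite (Multiplicative F[X]) := inferInstanceAs (Infinite F[X])
    exact not_finite (Multiplicative F[X])
  obtain ⟨r, hr, hr1⟩ := hinf.exists_notMem_finite (Set.finite_singleton 1)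
  obtain ⟨s, hs, hs1⟩ := hinf.exists_notMem_finite (Set.toFinite {1, r})
  simp only [Set.mem_insert_iff, Set.mem_singleton_iff, not_or] at hr1 hs1
  refine ⟨r.toAdd, s.toAdd, hr1, hs1.1, ?_, hr, hs⟩
  intro h
  exact hs1.2 (Multiplicative.toAdd.injective h).symm

theorem quad_zero {r s a b : F[X]} (hr : r ≠ 0) (hs : s ≠ 0) (hrs : r ≠ s)
    (h1 : r * a + r ^ 2 * b = 0) (h2 : s * a + s ^ 2 * b = 0) : a = 0 ∧ b = 0 := by
  have e1 : a + r * b = 0 := by
    apply mul_left_cancel₀ hr
    rw [mul_zero, ← h1]; ring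
  have e2 : a + s * b = 0 := by
    apply mul_left_cancel₀ hs
    rw [mul_zero, ← h2]; ring
  have e3 : (r - s) * b = 0 := by linear_combination e1 - e2
  have hb : b = 0 := (mul_eq_zero.mp e3).resolve_left (sub_ne_zero.mpr hrs)
  refine ⟨?_, hb⟩
  rw [hb] at e1
  simpa using e1

theorem comm_expand {S A : Type} [CommRing S] [Ring A] [Algebra S A] (g E : A) (r : S)
    (h : g * ((1 + r • E) * g * (1 + (-r) • E)) = ((1 + r • E) * g * (1 + (-r) • E)) * g) :
    r • (g * (E * g - g * E) - (E * g - g * E) * g) +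
      r ^ 2 • (E * g * E * g - g * (E * g * E)) = 0 := by
  rw [← sub_eq_zero] at h
  rw [← h]
  simp only [mul_add, add_mul, mul_sub, sub_mul, mul_one, one_mul, smul_mul_assoc,
    mul_smul_comm, mul_assoc]
  module

theorem noAb_Gam (h3 : ∀ c : F, c ^ 3 = 1 → c = 1) : NoAb (Gam F) := by
  intro γ S hS hc
  set g : Matrix (Fin 3) (Fin 3) F[X] := γ.1.1 with hg
  have key : ∀ i j : Fin 3, i ≠ j →
      (g * (single i j 1 * g - g * single i j 1) - (single i j 1 * g - g * single i j 1) * g = 0)
      ∧ (single i j 1 * g * single i j 1 * g - g * (single i j 1 * g * single i j 1) = 0) := by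
    intro i j hij
    obtain ⟨r, s, hr, hs, hrs, hrI, hsI⟩ :=
      two_elements (S.comap (tHom hij)) (index_comap_ne _ _ hS)
    have h1 : ∀ t : F[X], Multiplicative.ofAdd t ∈ S.comap (tHom hij) →
        t • (g * (single i j 1 * g - g * single i j 1) -
          (single i j 1 * g - g * single i j 1) * g) +
        t ^ 2 • (single i j 1 * g * single i j 1 * g - g * (single i j 1 * g * single i j 1))
          = 0 := by
      intro t ht
      apply comm_expand
      have h2 := congrArg (fun x : Gam F => x.1.1) (hc _ ht).eq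
      have e1 : (1 : Matrix (Fin 3) (Fin 3) F[X]) + t • single i j 1 = (tv hij t).1 := by
        rw [tv_coe, smul_single, smul_eq_mul, mul_one]
      have e2 : (1 : Matrix (Fin 3) (Fin 3) F[X]) + (-t) • single i j 1 = ((tv hij t)⁻¹).1 := by
        rw [tv_inv, tv_coe, smul_single, smul_eq_mul, mul_one]
      rw [e1, e2]
      exact h2
    have h2 := h1 r hrI
    have h3 := h1 s hsI
    constructor
    · ext1 a b
      exact (quad_zero hr hs hrs (congrFun (congrFun h2 a) b) (congrFun (congrFun h3 a) b)).1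
    · ext1 a b
      exact (quad_zero hr hs hrs (congrFun (congrFun h2 a) b) (congrFun (congrFun h3 a) b)).2
  have off : ∀ i j : Fin 3, i ≠ j → g j i = 0 := by
    intro i j hij
    have h1 := congrFun (congrFun (key i j hij).2 j) j
    rw [single_mul_mul_single] at h1
    simp [Matrix.sub_apply, hij.symm] at h1
    exact h1
  have dg : ∀ i j : Fin 3, i ≠ j → g i i = g j j := by
    intro i j hij
    have h1 := congrFun (congrFun (key i j hij).1 i) j
    have hd : g = diagonal (fun k => g k k) := by
      ext1 a b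
      by_cases hab : a = b
      · subst hab; simp
      · rw [diagonal_apply_ne _ hab]
        exact off b a (Ne.symm hab)
    rw [hd] at h1
    simp only [Matrix.sub_apply, diagonal_mul, mul_diagonal, single_apply_same,
      Matrix.zero_apply] at h1
    have h2 : (g i i - g j j) ^ 2 = 0 := by linear_combination -h1
    exact sub_eq_zero.mp (pow_eq_zero_iff (by norm_num) |>.mp h2)
  have hdet : g.det = 1 := γ.1.2
  rw [det_fin_three, off 1 0 n10, off 2 0 n20, off 0 1 n01, off 2 1 n21, off 0 2 n02,
    off 1 2 n12, ← dg 0 1 n01, ← dg 0 2 n02] at hdet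
  have h4 : g 0 0 ^ 3 = 1 := by linear_combination hdet
  have hu : IsUnit (g 0 0) := IsUnit.of_pow_eq_one h4 (by norm_num)
  obtain ⟨c, -, hc'⟩ := Polynomial.isUnit_iff.mp hu
  have h5 : c = 1 := by
    apply h3
    apply Polynomial.C_injective (R := F)
    rw [map_pow, hc', h4, map_one]
  have h6 : g 0 0 = 1 := by rw [← hc', h5, map_one]
  apply Subtype.ext
  apply Subtype.ext
  show g = 1
  ext1 a b
  by_cases hab : a = b
  · subst hab
    rw [one_apply_eq]
    by_cases h0 : a = 0
    · rw [h0, h6]
    · rw [dg a 0 h0, h6]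
  · rw [one_apply_ne hab]
    exact off b a (Ne.symm hab)

end Pool.Agent.H304Z
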