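import Mathlib

set_option autoImplicit false
set_option linter.unusedSectionVars false

/-!
A trace preserving star isomorphism of complex group algebras induces a star isomorphism of the
commutants of the right regular representations.
-/

open scoped InnerProductSpace

namespace Pool.Agent.H304Z

/-- The Hilbert space of square summable functions. -/
abbrev L2 (G : Type) : Type := lp (fun _ : G => ℂ) 2

/-- The operator `f ↦ f ∘ e`. -/
noncomputable def permOp {G : Type} (e : G ≃ G) : L2 G →L[ℂ] L2 G :=
  LinearIsometry.toContinuousLinearMap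
    { toFun := fun f => ⟨fun h => f (e h), by
        have h1 := (lp.memℓp f).summable (by norm_num)
        refine memℓp_gen ?_
        exact (e.summable_iff (f := fun h => ‖f h‖ ^ (2 : ENNReal).toReal)).2 h1⟩
      map_add' := fun f g => by ext h; rfl
      map_smul' := fun c f => by ext h; rfl
      norm_map' := fun f => by
        have h1 : (0 : ℝ) < (2 : ENNReal).toReal := by norm_num
        rw [lp.norm_eq_tsum_rpow h1, lp.norm_eq_tsum_rpow h1]
        congr 1
        exact e.tsum_eq (fun h => ‖f h‖ ^ (2 : ENNReal).toReal) }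

section

variable {G : Type} [Group G]

/-- right translation -/
noncomputable def rho (g : G) : L2 G →L[ℂ] L2 G := permOp (Equiv.mulRight g)

theorem rho_apply (g : G) (f : L2 G) (x : G) : (rho g f) x = f (x * g) := rfl

/-- the commutant of the right translations, as in the frozen statement -/
def Cm (G : Type) [Group G] : Set (L2 G →L[ℂ] L2 G) :=
  {T | ∀ g : G, ∀ f f' : L2 G, (∀ x : G, f' x = f (x * g)) → ∀ x : G, (T f') x = (T f) (x * g)}

theorem mem_Cm (T : L2 G →L[ℂ] L2 G) : T ∈ Cm G ↔ ∀ g : G, Commute T (rho g) := by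
  constructor
  · intro h g
    ext f x
    exact h g f (rho g f) (fun _ => rfl) x
  · intro h g f f' hf x
    have e : f' = rho g f := by
      ext y
      exact hf y
    have h1 := congrArg (fun S : L2 G →L[ℂ] L2 G => (S f) x) (h g).eq
    rw [e]
    exact h1

open Classical in
/-- point masses -/
noncomputable def dl (g : G) : L2 G := lp.single 2 g (1 : ℂ)

open Classical in
theorem dl_apply (g x : G) : (dl g) x = if x = g then 1 else 0 := by
  unfold dl
  by_cases h : x = g
  · subst h
    rw [lp.single_apply_self, if_pos rfl]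
  · rw [lp.single_apply_ne _ _ _ h, if_neg h]

/-- the group algebra inside the Hilbert space -/
noncomputable def iota : MonoidAlgebra ℂ G →ₗ[ℂ] L2 G :=
  (Finsupp.linearCombination ℂ (fun g : G => dl g)).comp
    (MonoidAlgebra.coeffLinearEquiv ℂ).toLinearMap

theorem iota_single (g : G) (c : ℂ) : iota (MonoidAlgebra.single g c) = c • dl g := by
  simp [iota]

theorem iota_apply (m : MonoidAlgebra ℂ G) (x : G) : (iota m) x = m.coeff x := by
  classical
  induction m using MonoidAlgebra.induction_linear with
  | zero => simp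
  | add a b ha hb =>
    rw [map_add, lp.coeFn_add, Pi.add_apply, ha, hb]
    rfl
  | single g c =>
    rw [iota_single, lp.coeFn_smul, Pi.smul_apply, dl_apply, MonoidAlgebra.coeff_single,
      Finsupp.single_apply]
    by_cases h : x = g
    · simp [h]
    · simp [h, Ne.symm h]

/-- right multiplication by an element of the group algebra -/
noncomputable def Rop : MonoidAlgebra ℂ G →ₗ[ℂ] (L2 G →L[ℂ] L2 G) :=
  (Finsupp.linearCombination ℂ (fun g : G => rho g⁻¹)).comp
    (MonoidAlgebra.coeffLinearEquiv ℂ).toLinearMap

theorem Rop_single (g : G) (c : ℂ) : Rop (MonoidAlgebra.single g c) = c • rho g⁻¹ := by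
  simp [Rop]

theorem Rop_iota (m m' : MonoidAlgebra ℂ G) : Rop m (iota m') = iota (m' * m) := by
  induction m using MonoidAlgebra.induction_linear with
  | zero => simp
  | add a b ha hb => rw [map_add, ContinuousLinearMap.add_apply, ha, hb, mul_add, map_add]
  | single g c =>
    ext x
    rw [Rop_single, ContinuousLinearMap.smul_apply, lp.coeFn_smul, Pi.smul_apply, rho_apply,
      iota_apply, iota_apply, MonoidAlgebra.coeff_mul_single_apply, smul_eq_mul, mul_comm]

theorem comm_Rop (T : L2 G →L[ℂ] L2 G) (h : ∀ g : G, Commute T (rho g))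
    (m : MonoidAlgebra ℂ G) : Commute T (Rop m) := by
  induction m using MonoidAlgebra.induction_linear with
  | zero => simp
  | add a b ha hb => rw [map_add]; exact ha.add_right hb
  | single g c => rw [Rop_single]; exact (h g⁻¹).smul_right c

theorem inner_iota (m m' m'' : MonoidAlgebra ℂ G)
    (hs : ∀ x, m''.coeff x⁻¹ = (starRingEnd ℂ) (m.coeff x)) :
    ⟪iota m, iota m'⟫_ℂ = (m'' * m').coeff 1 := by
  classical
  induction m' using MonoidAlgebra.induction_linear with
  | zero => simp
  | add a b ha hb =>
    rw [map_add, inner_add_right, ha, hb, mul_add]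
    rfl
  | single g c =>
    rw [iota_single, inner_smul_right, MonoidAlgebra.coeff_mul_single_apply, one_mul, hs]
    unfold dl
    rw [lp.inner_single_right, iota_apply]
    simp [mul_comm]

theorem dense_dl : ⊤ ≤ (Submodule.span ℂ (Set.range (dl : G → L2 G))).topologicalClosure := by
  classical
  let b : HilbertBasis G ℂ (L2 G) := HilbertBasis.ofRepr (LinearIsometryEquiv.refl ℂ _)
  have h := b.dense_span
  have e : (b : G → L2 G) = dl := by
    funext g
    rw [← b.repr_symm_single g]
    rfl
  rw [e] at h
  exact h.ge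

theorem rho_dl (g y : G) : rho g⁻¹ (dl y) = dl (y * g) := by
  classical
  ext x
  rw [rho_apply, dl_apply, dl_apply]
  by_cases h : x = y * g
  · simp [h]
  · rw [if_neg h, if_neg]
    intro h'
    exact h (by rw [← h']; simp)

end

/-- The isomorphism of the commutants. -/
theorem vn_iso {G H : Type} [Group G] [Group H] (θ : H →* MonoidAlgebra ℂ G)
    (htr : ∀ h, h ≠ 1 → (θ h).coeff 1 = 0)
    (hst : ∀ h x, (θ h⁻¹).coeff x⁻¹ = (starRingEnd ℂ) ((θ h).coeff x))
    (hsp : ∀ g : G, MonoidAlgebra.single g (1 : ℂ) ∈ Submodule.span ℂ (Set.range θ)) :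
    ∃ Φ : (L2 G →L[ℂ] L2 G) → (L2 H →L[ℂ] L2 H),
      Set.BijOn Φ (Cm G) (Cm H) ∧
      ∀ x ∈ Cm G, ∀ y ∈ Cm G,
        Φ (x + y) = Φ x + Φ y ∧ Φ (x * y) = Φ x * Φ y ∧
        Φ (star x) = star (Φ x) ∧ ∀ c : ℂ, Φ (c • x) = c • Φ x := by
  classical
  let v : H → L2 G := fun h => iota (θ h)
  have hv : Orthonormal ℂ v := by
    rw [orthonormal_iff_ite]
    intro h h'
    show ⟪iota (θ h), iota (θ h')⟫_ℂ = _
    rw [inner_iota (θ h) (θ h') (θ h⁻¹) (hst h), ← map_mul]
    by_cases e : h = h'
    · subst e
      simp
    · rw [if_neg e]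
      apply htr
      intro h1
      exact e (inv_mul_eq_one.mp h1)
  have hsp' : ⊤ ≤ (Submodule.span ℂ (Set.range v)).topologicalClosure := by
    refine le_trans dense_dl (Submodule.topologicalClosure_mono ?_)
    rw [Submodule.span_le]
    rintro _ ⟨g, rfl⟩
    have h1 : iota (MonoidAlgebra.single g (1 : ℂ)) ∈
        (Submodule.span ℂ (Set.range θ)).map iota := Submodule.mem_map_of_mem (hsp g)
    rw [Submodule.map_span, iota_single, one_smul] at h1
    have e : iota '' Set.range θ = Set.range v := by
      rw [← Set.range_comp]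
      rfl
    rw [e] at h1
    exact h1
  let b : HilbertBasis H ℂ (L2 G) := HilbertBasis.mk hv hsp'
  have hb : ∀ h, b h = iota (θ h) := fun h => congrFun (HilbertBasis.coe_mk hv hsp') h
  have hrep : ∀ h, b.repr (iota (θ h)) = dl h := by
    intro h
    rw [← hb, b.repr_self]
    rfl
  let Φ := b.repr.conjStarAlgEquiv
  have key : ∀ h : H, Φ (Rop (θ h)) = rho h⁻¹ := by
    intro h
    have hd : Dense ((Submodule.span ℂ (Set.range (dl : H → L2 H)) : Submodule ℂ (L2 H)) :
        Set (L2 H)) := by
      rw [Submodule.dense_iff_topologicalClosure_eq_top]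
      exact top_le_iff.mp dense_dl
    refine ContinuousLinearMap.ext_on hd ?_
    rintro _ ⟨y, rfl⟩
    show b.repr (Rop (θ h) (b.repr.symm (dl y))) = _
    rw [← hrep y, LinearIsometryEquiv.symm_apply_apply, Rop_iota, ← map_mul, hrep, hrep, rho_dl]
  have hiff : ∀ T, T ∈ Cm G ↔ Φ T ∈ Cm H := by
    intro T
    rw [mem_Cm, mem_Cm]
    constructor
    · intro hT h
      have h1 := (comm_Rop T hT (θ h⁻¹)).map Φ
      rw [key, inv_inv] at h1
      exact h1
    · intro hT g
      have h1 : ∀ h : H, Commute T (Rop (θ h)) := by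
        intro h
        have h2 := hT h⁻¹
        rw [← key] at h2
        apply Φ.injective
        rw [map_mul, map_mul]
        exact h2.eq
      have h2 : ∀ m ∈ Submodule.span ℂ (Set.range θ), Commute T (Rop m) := by
        intro m hm
        induction hm using Submodule.span_induction with
        | mem x hx =>
          obtain ⟨h, rfl⟩ := hx
          exact h1 h
        | zero => simp
        | add x y _ _ hx hy => rw [map_add]; exact hx.add_right hy
        | smul c x _ hx => rw [map_smul]; exact hx.smul_right c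
      have h3 := h2 _ (hsp g⁻¹)
      rw [Rop_single, one_smul, inv_inv] at h3
      exact h3
  refine ⟨Φ, ⟨fun T hT => (hiff T).mp hT, Φ.injective.injOn, ?_⟩, ?_⟩
  · intro S hS
    refine ⟨Φ.symm S, ?_, Φ.apply_symm_apply S⟩
    rw [hiff, Φ.apply_symm_apply]
    exact hS
  · intro x _ y _
    exact ⟨map_add Φ x y, map_mul Φ x y, map_star Φ x, fun c => map_smul Φ c x⟩

end Pool.Agent.H304Z
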